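import Mathlib

/-!
Combinatorics of the schedule used in the solution of MP_7b2682_an.
-/

set_option autoImplicit false

namespace Pool.Agent.MP7b2682

/-- labels: `inl b` is `g_b`, `inr k` is `f_k`. -/
abbrev Lab := ℕ ⊕ ℕ
/-- points: label and time. -/
abbrev Pt := Lab × ℕ

/-- threshold quality of a label -/
def th : Lab → ℕ
  | Sum.inl b => b
  | Sum.inr _ => 0

/-- parent label (relevant only if `th ≠ 0`) -/
def parL (a : Lab) : Lab := Sum.inl (Nat.unpair (th a - 1)).1

/-- window length -/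
def kap (q : ℕ) : ℕ := 2 * 4 ^ q

/-- zone of a time -/
def zn (l : ℕ) : ℕ := Nat.log 4 l

/-- quality of a time -/
def ql (l : ℕ) : ℕ := 2 * zn l - 1 - Nat.log 2 (l - 4 ^ zn l)

/-- the time lies in a window -/
def Win (l : ℕ) : Prop := 4 ^ zn l < l ∧ l < 2 * 4 ^ zn l ∧ 2 * ql l + 2 ≤ zn l

/-- type of a group of zones -/
def KK (g : ℕ) : ℕ := (Nat.unpair (Nat.log 2 g)).1

/-- zones allowed for a label -/
def al : Lab → ℕ → Prop
  | Sum.inl b, n => n % 2 = 0 ∨ KK (n / 2) ≤ b
  | Sum.inr k, n => n % 2 = 1 ∨ KK (n / 2) ≠ k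

def Ini (p : Pt) : Prop := p.2 < kap (th p.1) ∧ th p.1 ≠ 0

def Att (p : Pt) : Prop := Win p.2 ∧ th p.1 ≤ ql p.2 ∧ al p.1 (zn p.2)

def Atd (p : Pt) : Prop := Ini p ∨ Att p

open Classical in
/-- quality of an attached point -/
noncomputable def qu (p : Pt) : ℕ := if Ini p then th p.1 else ql p.2

open Classical in
/-- position of an attached point -/
noncomputable def po (p : Pt) : ℕ := if Ini p then p.2 else p.2 % kap (ql p.2)

open Classical in
/-- label of the parent of an attached point -/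
noncomputable def pl (p : Pt) : Lab := if Ini p then parL p.1 else p.1

def Sv (p : Pt) : Prop := Atd p ∧ po p + 1 < kap (qu p)

/-- shift -/
def tau (p : Pt) : Pt := (p.1, p.2 + 1)

/-! ### arithmetic of windows -/

theorem kap_pos (q : ℕ) : 0 < kap q := by unfold kap; positivity

theorem kap_eq (q : ℕ) : kap q = 2 ^ (2 * q + 1) := by
  unfold kap
  rw [pow_succ, pow_mul]; norm_num; ring

theorem kap_mono {a b : ℕ} (h : a ≤ b) : kap a ≤ kap b := by
  unfold kap
  exact Nat.mul_le_mul_left _ (Nat.pow_le_pow_right (by norm_num) h)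

theorem four_pow_eq (n : ℕ) : 4 ^ n = 2 ^ (2 * n) := by
  rw [pow_mul]; norm_num

theorem win_spec {l : ℕ} (h : Win l) :
    ∃ s, ql l + s + 1 = 2 * zn l ∧ 4 ^ zn l + 2 ^ s ≤ l ∧ l < 4 ^ zn l + 2 ^ (s + 1) := by
  obtain ⟨h1, h2, h3⟩ := h
  have hr : l - 4 ^ zn l ≠ 0 := by omega
  have hlog : Nat.log 2 (l - 4 ^ zn l) < 2 * zn l := by
    apply Nat.log_lt_of_lt_pow hr
    rw [← four_pow_eq]; omega
  refine ⟨Nat.log 2 (l - 4 ^ zn l), ?_, ?_, ?_⟩
  · have : ql l = 2 * zn l - 1 - Nat.log 2 (l - 4 ^ zn l) := rfl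
    omega
  · have := Nat.pow_log_le_self 2 hr
    omega
  · have := Nat.lt_pow_succ_log_self (b := 2) (by norm_num) (l - 4 ^ zn l)
    rw [← Nat.succ_eq_add_one]
    omega

theorem win_of {l n q s : ℕ} (hs : q + s + 1 = 2 * n) (h1 : 4 ^ n + 2 ^ s ≤ l)
    (h2 : l < 4 ^ n + 2 ^ (s + 1)) (hq : 2 * q + 2 ≤ n) : Win l ∧ zn l = n ∧ ql l = q := by
  have hp : 2 ^ (s + 1) ≤ 4 ^ n := by
    rw [four_pow_eq]; exact Nat.pow_le_pow_right (by norm_num) (by omega)
  have hpos : 0 < 2 ^ s := by positivity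
  have hz : zn l = n := by
    unfold zn
    apply Nat.log_eq_of_pow_le_of_lt_pow
    · omega
    · rw [pow_succ]; omega
  have hl : Nat.log 2 (l - 4 ^ n) = s := by
    apply Nat.log_eq_of_pow_le_of_lt_pow <;> omega
  have hql : ql l = q := by
    unfold ql; rw [hz, hl]; omega
  refine ⟨⟨?_, ?_, ?_⟩, hz, hql⟩
  · rw [hz]; omega
  · rw [hz]; omega
  · rw [hz, hql]; exact hq

theorem kap_dvd_four_pow {q n : ℕ} (h : 2 * q + 2 ≤ n) : kap q ∣ 4 ^ n := by
  rw [kap_eq, four_pow_eq]; exact pow_dvd_pow _ (by omega)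

theorem kap_dvd_two_pow {q s : ℕ} (h : 2 * q + 1 ≤ s) : kap q ∣ 2 ^ s := by
  rw [kap_eq]; exact pow_dvd_pow _ h

theorem mod_succ_of_lt {l k : ℕ} (h : l % k + 1 < k) : (l + 1) % k = l % k + 1 := by
  rw [Nat.add_mod, Nat.mod_eq_of_lt (show 1 < k by omega), Nat.mod_eq_of_lt h]

theorem mod_pred_of_ne {l k : ℕ} (hk : 0 < k) (h : (l + 1) % k ≠ 0) :
    l % k + 1 = (l + 1) % k := by
  have h1 : l % k < k := Nat.mod_lt _ hk
  by_cases h2 : l % k + 1 < k
  · exact (mod_succ_of_lt h2).symm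
  · exfalso
    apply h
    have h3 : l % k + 1 = k := by omega
    have h4 := Nat.div_add_mod l k
    have h5 : l + 1 = k * (l / k + 1) := by
      rw [Nat.mul_add, Nat.mul_one]; omega
    rw [h5, Nat.mul_mod_right]

theorem win_succ {l : ℕ} (h : Win l) (hj : l % kap (ql l) + 1 < kap (ql l)) :
    Win (l + 1) ∧ zn (l + 1) = zn l ∧ ql (l + 1) = ql l ∧
      (l + 1) % kap (ql l) = l % kap (ql l) + 1 := by
  obtain ⟨s, hs, h1, h2⟩ := win_spec h
  have hq := h.2.2
  have hm := mod_succ_of_lt hj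
  have h3 : l + 1 < 4 ^ zn l + 2 ^ (s + 1) := by
    rcases Nat.lt_or_ge (l + 1) (4 ^ zn l + 2 ^ (s + 1)) with h | h
    · exact h
    · exfalso
      have he : l + 1 = 4 ^ zn l + 2 ^ (s + 1) := by omega
      have hd : kap (ql l) ∣ l + 1 := by
        rw [he]
        exact Nat.dvd_add (kap_dvd_four_pow hq) (kap_dvd_two_pow (by omega))
      have := Nat.mod_eq_zero_of_dvd hd
      omega
  obtain ⟨a, b, c⟩ := win_of hs (by omega : 4 ^ zn l + 2 ^ s ≤ l + 1) h3 hq
  exact ⟨a, b, c, hm⟩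

theorem win_pred {l : ℕ} (h : Win (l + 1)) (hj : (l + 1) % kap (ql (l + 1)) ≠ 0) :
    Win l ∧ zn l = zn (l + 1) ∧ ql l = ql (l + 1) ∧
      l % kap (ql (l + 1)) + 1 = (l + 1) % kap (ql (l + 1)) := by
  obtain ⟨s, hs, h1, h2⟩ := win_spec h
  have hq := h.2.2
  have hm := mod_pred_of_ne (kap_pos _) hj
  have h3 : 4 ^ zn (l + 1) + 2 ^ s ≤ l := by
    rcases Nat.lt_or_ge l (4 ^ zn (l + 1) + 2 ^ s) with h | h
    · exfalso
      have he : l + 1 = 4 ^ zn (l + 1) + 2 ^ s := by omega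
      have hd : kap (ql (l + 1)) ∣ l + 1 := by
        conv_rhs => rw [he]
        exact Nat.dvd_add (kap_dvd_four_pow hq) (kap_dvd_two_pow (by omega))
      exact hj (Nat.mod_eq_zero_of_dvd hd)
    · exact h
  obtain ⟨a, b, c⟩ := win_of hs h3 (by omega) hq
  exact ⟨a, b, c, hm⟩

theorem not_win_kap (q : ℕ) : ¬ Win (kap q) := by
  intro h
  have hz : zn (kap q) = q := by
    unfold zn kap
    apply Nat.log_eq_of_pow_le_of_lt_pow
    · have : 0 < 4 ^ q := by positivity
      omega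
    · have : 0 < 4 ^ q := by positivity
      rw [pow_succ]; omega
  have := h.2.1
  rw [hz] at this
  unfold kap at this
  omega

theorem two_kap_lt {l : ℕ} (h : Win l) : 2 * kap (ql l) < l := by
  have hq := h.2.2
  have h1 : 2 * kap (ql l) ≤ 4 ^ zn l := by
    rw [kap_eq, four_pow_eq, ← pow_succ']
    exact Nat.pow_le_pow_right (by norm_num) (by omega)
  have := h.1
  omega

theorem pos_lt_kap (l : ℕ) : l % kap (ql l) < kap (ql l) := Nat.mod_lt _ (kap_pos _)

/-! ### attached points -/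

theorem not_ini_of_att {p : Pt} (h : Att p) : ¬ Ini p := by
  intro hi
  have h1 := two_kap_lt h.1
  have h2 := kap_mono h.2.1
  have h3 := hi.1
  omega

theorem qu_ini {p : Pt} (h : Ini p) : qu p = th p.1 := by simp [qu, h]
theorem po_ini {p : Pt} (h : Ini p) : po p = p.2 := by simp [po, h]
theorem pl_ini {p : Pt} (h : Ini p) : pl p = parL p.1 := by simp [pl, h]
theorem qu_att {p : Pt} (h : Att p) : qu p = ql p.2 := by simp [qu, not_ini_of_att h]
theorem po_att {p : Pt} (h : Att p) : po p = p.2 % kap (ql p.2) := by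
  simp [po, not_ini_of_att h]
theorem pl_att {p : Pt} (h : Att p) : pl p = p.1 := by simp [pl, not_ini_of_att h]

theorem tau_fst (p : Pt) : (tau p).1 = p.1 := rfl
theorem tau_snd (p : Pt) : (tau p).2 = p.2 + 1 := rfl

theorem tau_inj {p q : Pt} (h : tau p = tau q) : p = q := by
  have h1 : (tau p).1 = (tau q).1 := by rw [h]
  have h2 : (tau p).2 = (tau q).2 := by rw [h]
  rw [tau_fst, tau_fst] at h1
  rw [tau_snd, tau_snd] at h2
  exact Prod.ext h1 (by omega)

theorem po_lt {p : Pt} (h : Atd p) : po p < kap (qu p) := by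
  rcases h with h | h
  · rw [po_ini h, qu_ini h]; exact h.1
  · rw [po_att h, qu_att h]; exact pos_lt_kap _

/-- S1: behaviour of survivors -/
theorem sv_tau {p : Pt} (h : Sv p) :
    Atd (tau p) ∧ qu (tau p) = qu p ∧ po (tau p) = po p + 1 ∧ pl (tau p) = pl p := by
  obtain ⟨h1, h2⟩ := h
  rcases h1 with h1 | h1
  · rw [po_ini h1, qu_ini h1] at h2
    have hi : Ini (tau p) := ⟨by rw [tau_snd, tau_fst]; exact h2, by rw [tau_fst]; exact h1.2⟩
    refine ⟨Or.inl hi, ?_, ?_, ?_⟩
    · rw [qu_ini hi, qu_ini h1, tau_fst]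
    · rw [po_ini hi, po_ini h1, tau_snd]
    · rw [pl_ini hi, pl_ini h1, tau_fst]
  · rw [po_att h1, qu_att h1] at h2
    obtain ⟨a, b, c, d⟩ := win_succ h1.1 h2
    have ha : Att (tau p) := by
      refine ⟨by rw [tau_snd]; exact a, ?_, ?_⟩
      · rw [tau_fst, tau_snd, c]; exact h1.2.1
      · rw [tau_fst, tau_snd, b]; exact h1.2.2
    refine ⟨Or.inr ha, ?_, ?_, ?_⟩
    · rw [qu_att ha, qu_att h1, tau_snd, c]
    · rw [po_att ha, po_att h1, tau_snd, c, d]
    · rw [pl_att ha, pl_att h1, tau_fst]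

/-- S2 -/
theorem sv_of_tau {p : Pt} (h : Atd (tau p)) (hp : po (tau p) ≠ 0) : Sv p := by
  rcases h with h | h
  · have hi : Ini p := by
      refine ⟨?_, h.2⟩
      have := h.1
      rw [tau_fst, tau_snd] at this
      omega
    refine ⟨Or.inl hi, ?_⟩
    rw [po_ini hi, qu_ini hi]
    exact h.1
  · rw [po_att h, tau_snd] at hp
    have hw := h.1
    rw [tau_snd] at hw
    obtain ⟨a, b, c, d⟩ := win_pred hw hp
    have ha : Att p := by
      refine ⟨a, ?_, ?_⟩
      · rw [c]; exact h.2.1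
      · rw [b]; exact h.2.2
    refine ⟨Or.inr ha, ?_⟩
    rw [po_att ha, qu_att ha, c, d]
    exact pos_lt_kap _

/-- a non-survivor is followed by a free point or a window start -/
theorem start_of_tau {p : Pt} (h : Atd (tau p)) (hs : ¬ Sv p) :
    Att (tau p) ∧ po (tau p) = 0 ∧ pl (tau p) = p.1 := by
  have h0 : po (tau p) = 0 := by
    by_contra hp
    exact hs (sv_of_tau h hp)
  have hni : ¬ Ini (tau p) := by
    intro hi
    rw [po_ini hi, tau_snd] at h0
    omega
  have ha : Att (tau p) := by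
    rcases h with h | h
    · exact absurd h hni
    · exact h
  exact ⟨ha, h0, by rw [pl_att ha, tau_fst]⟩

theorem th_parL {a : Lab} (h : th a ≠ 0) : th (parL a) < th a := by
  unfold parL
  have : th (Sum.inl (Nat.unpair (th a - 1)).1) = (Nat.unpair (th a - 1)).1 := rfl
  rw [this]
  have := Nat.unpair_left_le (th a - 1)
  omega

theorem th_pl_le {p : Pt} (h : Atd p) : th (pl p) ≤ qu p := by
  rcases h with h | h
  · rw [pl_ini h, qu_ini h]; exact (th_parL h.2).le
  · rw [pl_att h, qu_att h]; exact h.2.1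

/-- the cut position is free -/
theorem not_atd_kap {a : Lab} {q : ℕ} (h : th a ≤ q) : ¬ Atd (a, kap q) := by
  rintro (hi | ha)
  · have h1 : kap q < kap (th a) := hi.1
    have h2 := kap_mono h
    omega
  · exact not_win_kap q ha.1

theorem rank_lt {p : Pt} (h : Atd p) : po p + th (pl p) < p.2 + th p.1 := by
  rcases h with h | h
  · rw [po_ini h, pl_ini h]
    have := th_parL h.2
    omega
  · rw [po_att h, pl_att h]
    have h1 := two_kap_lt h.1
    have h2 := pos_lt_kap p.2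
    omega

theorem po_le {p : Pt} (h : Atd p) : po p ≤ p.2 := by
  rcases h with h | h
  · rw [po_ini h]
  · rw [po_att h]; exact Nat.mod_le _ _

/-! ### free run lengths -/

open Classical in
/-- free run length -/
noncomputable def fr (a : Lab) : ℕ → ℕ
  | 0 => 1
  | (l + 1) => if Atd (a, l) then 1 else fr a l + 1

theorem fr_pos (a : Lab) (l : ℕ) : 1 ≤ fr a l := by
  cases l with
  | zero => simp [fr]
  | succ l => unfold fr; split_ifs <;> omega

theorem fr_le (a : Lab) (l : ℕ) : fr a l ≤ l + 1 := by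
  induction l with
  | zero => simp [fr]
  | succ l ih => unfold fr; split_ifs <;> omega

theorem fr_succ_of_atd {a : Lab} {l : ℕ} (h : Atd (a, l)) : fr a (l + 1) = 1 := by
  simp [fr, h]

theorem fr_succ_of_free {a : Lab} {l : ℕ} (h : ¬ Atd (a, l)) : fr a (l + 1) = fr a l + 1 := by
  simp [fr, h]

theorem fr_ge {a : Lab} {s l : ℕ} (hsl : s ≤ l) (h : ∀ m, s ≤ m → m < l → ¬ Atd (a, m)) :
    l + 1 ≤ fr a l + s := by
  induction l, hsl using Nat.le_induction with
  | base => have := fr_pos a s; omega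
  | succ l hl ih =>
    rw [fr_succ_of_free (h l hl (Nat.lt_succ_self l))]
    have := ih (fun m h1 h2 => h m h1 (by omega))
    omega

end Pool.Agent.MP7b2682
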