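import Pool.Agent.Lib.MP_7b2682_an.Operator

set_option autoImplicit false

open Topology

namespace Pool.Agent.FRecEx

/-- frequently recurrent vectors of `T` -/
def FR (x : X) : Prop := ∀ V ∈ 𝓝 x, ∃ δ : ℝ, 0 < δ ∧ ∃ N₀ : ℕ, ∀ N : ℕ, N₀ ≤ N →
  δ * (N : ℝ) ≤ (({n : ℕ | 1 ≤ n ∧ n ≤ N ∧ (T ^ n) x ∈ V}.ncard : ℕ) : ℝ)

lemma U_return {l c m : ℕ} (h : Ret l c m) : (T ^ m) (U (l, 0)) - U (l, 0) =
    (1 / 2 ^ c : ℝ) • e (l, m) := by
  have h1 := inWin_ret h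
  have hm := L_pos h.2.2
  rw [Tpow_U, Nat.zero_add, U_eq, pr_ret h1 (by have := s_pos c; omega) (by omega), sh_single,
    one_smul, wt_link h1 (by have := s_pos c; omega)]
  simp

lemma exists_code (l : ℕ) {ε : ℝ} (hε : 0 < ε) : ∃ c, 1 ≤ c ∧ ty c = l ∧ (1 / 2 ^ c : ℝ) < ε := by
  obtain ⟨k, hk⟩ := exists_pow_lt_of_lt_one hε (show (1/2 : ℝ) < 1 by norm_num)
  refine ⟨Nat.pair l (k + 1), ?_, ?_, ?_⟩
  · have := Nat.right_le_pair l (k + 1); omega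
  · unfold ty; rw [Nat.unpair_pair]
  · have h1 := Nat.right_le_pair l (k + 1)
    calc (1 / 2 ^ (Nat.pair l (k + 1)) : ℝ) ≤ 1 / 2 ^ k := by
          apply one_div_le_one_div_of_le (by positivity)
          exact pow_le_pow_right₀ (by norm_num) (by omega)
      _ = (1 / 2) ^ k := by rw [one_div_pow]
      _ < ε := hk

lemma FR_U (l : ℕ) : FR (U (l, 0)) := by
  intro V hV
  obtain ⟨ε, hε, hball⟩ := Metric.mem_nhds_iff.1 hV
  obtain ⟨c, hc1, hc2, hc3⟩ := exists_code l hε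
  obtain ⟨δ, hδ, N₀, hN⟩ := L_density c
  refine ⟨δ, hδ, N₀, fun N hNN => (hN N hNN).trans ?_⟩
  have : {m : ℕ | 1 ≤ m ∧ m ≤ N ∧ m ∈ L c}.ncard ≤
      {n : ℕ | 1 ≤ n ∧ n ≤ N ∧ (T ^ n) (U (l, 0)) ∈ V}.ncard := by
    apply Set.ncard_le_ncard
    · rintro m ⟨h1, h2, h3⟩
      refine ⟨h1, h2, hball ?_⟩
      rw [Metric.mem_ball, dist_eq_norm, U_return ⟨hc1, hc2, h3⟩, norm_smul, norm_e, mul_one,
        Real.norm_eq_abs, abs_of_pos (by positivity)]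
      exact hc3
    · apply Set.Finite.subset (Set.finite_Icc 1 N)
      rintro m ⟨h1, h2, _⟩
      exact ⟨h1, h2⟩
  exact_mod_cast this

lemma e_in_span (ν : ℕ × ℕ) : ∃ η : ℕ × ℕ →₀ ℝ, e ν = sh U 0 η := by
  obtain ⟨l, n⟩ := ν
  refine ⟨(wt (l, n))⁻¹ • (Finsupp.single (l, n) 1 - pr l n), ?_⟩
  rw [map_smul, map_sub, sh_single, one_smul, Nat.add_zero]
  exact e_eq l n

lemma finite_approx (x : X) {ε : ℝ} (hε : 0 < ε) : ∃ η : ℕ × ℕ →₀ ℝ, ‖x - sh U 0 η‖ < ε := by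
  have h1 := hasSum_e x
  have h2 := (Metric.tendsto_nhds.1 h1 ε hε).exists
  obtain ⟨S, hS⟩ := h2
  choose f hf using e_in_span
  refine ⟨∑ ν ∈ S, x ν • f ν, ?_⟩
  rw [map_sum]
  simp only [map_smul, ← hf]
  rw [← dist_eq_norm, dist_comm]
  exact hS

lemma rat_approx (η : ℕ × ℕ →₀ ℝ) {ε : ℝ} (hε : 0 < ε) :
    ∃ η' : ℕ × ℕ →₀ ℚ, ‖sh U 0 η - sh U 0 (rl η')‖ < ε := by
  obtain ⟨M, hM0, hM⟩ : ∃ M : ℝ, 0 < M ∧ ∑ ν ∈ η.support, ‖U ν‖ ≤ M :=
    ⟨∑ ν ∈ η.support, ‖U ν‖ + 1, by positivity, by linarith⟩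
  have hδ : 0 < ε / (2 * M) := by positivity
  have hex : ∀ r : ℝ, ∃ p : ℚ, (r = 0 → p = 0) ∧ |r - p| < ε / (2 * M) := by
    intro r
    by_cases hr : r = 0
    · exact ⟨0, fun _ => rfl, by rw [hr]; simpa using hδ⟩
    · obtain ⟨p, hp⟩ := exists_rat_near r hδ
      exact ⟨p, fun h => absurd h hr, hp⟩
  choose f hf0 hf using hex
  refine ⟨η.mapRange f (hf0 0 rfl), ?_⟩
  rw [← map_sub, sh_apply]
  have hsub : (η - rl (η.mapRange f (hf0 0 rfl))).support ⊆ η.support := by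
    intro μ hμ
    rw [Finsupp.mem_support_iff] at hμ ⊢
    intro h0
    apply hμ
    rw [Finsupp.sub_apply, rl, Finsupp.mapRange_apply, Finsupp.mapRange_apply, h0, hf0 0 rfl]
    simp
  rw [Finsupp.sum_of_support_subset _ hsub _ (by simp)]
  calc ‖∑ μ ∈ η.support, (η - rl (η.mapRange f (hf0 0 rfl))) μ • U (μ.1, μ.2 + 0)‖
      ≤ ∑ μ ∈ η.support, ε / (2 * M) * ‖U μ‖ := by
        refine (norm_sum_le _ _).trans (Finset.sum_le_sum fun μ _ => ?_)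
        rw [norm_smul, Real.norm_eq_abs, Finsupp.sub_apply, rl, Finsupp.mapRange_apply,
          Finsupp.mapRange_apply, Nat.add_zero]
        exact mul_le_mul_of_nonneg_right (hf _).le (norm_nonneg _)
    _ = ε / (2 * M) * ∑ μ ∈ η.support, ‖U μ‖ := by rw [Finset.mul_sum]
    _ ≤ ε / (2 * M) * M := mul_le_mul_of_nonneg_left hM hδ.le
    _ = ε / 2 := by field_simp
    _ < ε := by linarith

lemma U_zero (l : ℕ) : U (l, 0) - sh U 0 (xi l) = (1 / 2 ^ l : ℝ) • e (l, 0) := by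
  have h1 : InWin l 0 l 0 := inWin_init (by have := s_lt_W l; omega)
  rw [U_eq, pr_init h1 (by have := s_pos l; omega) (by omega), sh_tr,
    wt_link h1 (by have := s_pos l; omega)]
  simp

lemma dense_FR : Dense {x : X | FR x} := by
  rw [Metric.dense_iff]
  intro x ε hε
  obtain ⟨η, hη⟩ := finite_approx x (show 0 < ε / 3 by positivity)
  obtain ⟨η', hη'⟩ := rat_approx η (show 0 < ε / 3 by positivity)
  obtain ⟨k, hk⟩ := exists_pow_lt_of_lt_one (show 0 < ε / 3 by positivity)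
    (show (1/2 : ℝ) < 1 by norm_num)
  obtain ⟨l, hl, hxi⟩ := xi_dense η' k
  refine ⟨U (l, 0), ?_, FR_U l⟩
  have h1 : ‖U (l, 0) - sh U 0 (rl η')‖ < ε / 3 := by
    rw [← hxi, U_zero, norm_smul, norm_e, mul_one, Real.norm_eq_abs, abs_of_pos (by positivity)]
    calc (1 / 2 ^ l : ℝ) ≤ 1 / 2 ^ k := by
          apply one_div_le_one_div_of_le (by positivity)
          exact pow_le_pow_right₀ (by norm_num) (by omega)
      _ = (1 / 2) ^ k := by rw [one_div_pow]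
      _ < ε / 3 := hk
  rw [Metric.mem_ball, dist_eq_norm]
  calc ‖U (l, 0) - x‖ = ‖(U (l, 0) - sh U 0 (rl η')) - (sh U 0 η - sh U 0 (rl η')) -
        (x - sh U 0 η)‖ := by congr 1; abel
    _ ≤ ‖U (l, 0) - sh U 0 (rl η')‖ + ‖sh U 0 η - sh U 0 (rl η')‖ + ‖x - sh U 0 η‖ := by
        refine (norm_sub_le _ _).trans ?_
        gcongr
        exact norm_sub_le _ _
    _ < ε := by linarith

end Pool.Agent.FRecEx
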