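import Pool.Agent.Lib.MP_7b2682_an.Rigidity

set_option autoImplicit false

open Topology Filter

namespace Pool.Agent.FRecEx

/-- the asymptotic coefficient -/
noncomputable def bb (x : X) (μ : ℕ × ℕ) : ℝ :=
  ∑' ν : ℕ × ℕ, x ν / wt ν * ((if ν = μ then 1 else 0) - pr ν.1 ν.2 μ)

lemma coord_T (x : X) (t : ℕ) (μ : ℕ × ℕ) :
    HasSum (fun ν : ℕ × ℕ => x ν / wt ν * (al (ν.1, ν.2 + t) μ - sh al t (pr ν.1 ν.2) μ))
      ((T ^ t) x μ / wt μ) := by
  have h := (hasSum_map ((ev μ).comp (T ^ t)) x).div_const (wt μ)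
  have h1 : ((ev μ).comp (T ^ t)) x = (T ^ t) x μ := rfl
  rw [h1] at h
  have h2 : (fun ν : ℕ × ℕ => x ν / wt ν * (al (ν.1, ν.2 + t) μ - sh al t (pr ν.1 ν.2) μ)) =
      fun ν : ℕ × ℕ => x ν • ((ev μ).comp (T ^ t)) (e ν) / wt μ := by
    funext ν
    obtain ⟨l, n⟩ := ν
    have h3 : ((ev μ).comp (T ^ t)) (e (l, n)) = (T ^ t) (e (l, n)) μ := rfl
    have hw := (wt_pos μ).ne'
    have h4 : (T ^ t) (e (l, n)) = (wt (l, n))⁻¹ • emb (al (l, n + t) - sh al t (pr l n)) := by
      rw [Tpow_e, map_sub, emb_sh]; rfl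
    rw [h3, h4, lp.coeFn_smul, Pi.smul_apply, emb_apply, Finsupp.sub_apply, smul_eq_mul,
      smul_eq_mul]
    simp only
    field_simp
  rw [h2]
  exact h

lemma sum_abs_le (l n t : ℕ) (l₁ n₁ : ℕ) :
    ∑ ν ∈ (pr l n).support, |pr l n ν| * |al (ν.1, ν.2 + t) (l₁, n₁ + t)| ≤ E (cd l n) := by
  by_cases hl : Link l n
  · obtain ⟨c, a, h, ha⟩ := hl
    rw [h.cd_eq]
    have h1 : ∑ ν ∈ (pr l n).support, |pr l n ν| * |al (ν.1, ν.2 + t) (l₁, n₁ + t)| ≤
        ∑ ν ∈ (pr l n).support, |pr l n ν| * (2 * D (c - 1)) := by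
      apply Finset.sum_le_sum
      intro ν hν
      obtain ⟨h1, h2, h3, h4⟩ := pr_supp h ha hν
      have h5 := h4 0 (by have := s_lt_W c; omega)
      apply mul_le_mul_of_nonneg_left _ (abs_nonneg _)
      exact (al_bound _ _ _ _ _).trans (one_add_E_le (cd_lt h1 (by omega)))
    refine h1.trans ?_
    rw [← Finset.sum_mul]
    have h2 := pr_nrm h ha
    rw [nrm_eq_sum (Finset.Subset.refl _)] at h2
    simp only [mul_one] at h2
    have h3 := D_pos (c - 1)
    unfold E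
    nlinarith
  · rw [pr_nonlink hl]
    simp [E_nonneg]

lemma pr_le (l n : ℕ) (μ : ℕ × ℕ) : |pr l n μ| ≤ E (cd l n) := by
  by_cases hl : Link l n
  · obtain ⟨c, a, h, ha⟩ := hl
    rw [h.cd_eq]
    have h2 := pr_nrm h ha
    have h3 := le_nrm (ρ := fun _ => 1) (fun _ => zero_le_one) (pr l n) μ
    have h4 := one_le_D (c - 1)
    unfold E
    have h5 : (0:ℝ) ≤ c := Nat.cast_nonneg c
    nlinarith
  · rw [pr_nonlink hl]
    simp [E_nonneg]

lemma bb_summable {x : X} (hx : FR x) (μ : ℕ × ℕ) :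
    Summable (fun ν : ℕ × ℕ => x ν / wt ν * ((if ν = μ then 1 else 0) - pr ν.1 ν.2 μ)) := by
  apply Summable.of_norm_bounded (g := dom x) hx.summable_dom
  rintro ⟨l, n⟩
  unfold dom
  rw [norm_mul, norm_div, Real.norm_eq_abs, Real.norm_eq_abs, abs_of_pos (wt_pos _)]
  apply mul_le_mul_of_nonneg_left _ (div_nonneg (abs_nonneg _) (wt_pos _).le)
  refine (norm_sub_le _ _).trans ?_
  rw [Real.norm_eq_abs, Real.norm_eq_abs]
  have h1 := pr_le l n μ
  have h2 := E_nonneg (cd l n)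
  have h3 : |(if (l, n) = μ then (1:ℝ) else 0)| ≤ 1 := by split_ifs <;> simp
  simp only at h1 ⊢
  linarith

/-- (b): the asymptotic coefficients are limits of coordinates along the orbit -/
lemma bb_limit {x : X} (hx : FR x) (l₁ n₁ : ℕ) :
    Tendsto (fun t => (T ^ t) x (l₁, n₁ + t) / wt (l₁, n₁ + t)) atTop (𝓝 (bb x (l₁, n₁))) := by
  have h1 : (fun t => (T ^ t) x (l₁, n₁ + t) / wt (l₁, n₁ + t)) = fun t => ∑' ν : ℕ × ℕ,
      x ν / wt ν * (al (ν.1, ν.2 + t) (l₁, n₁ + t) - sh al t (pr ν.1 ν.2) (l₁, n₁ + t)) := by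
    funext t
    exact (coord_T x t (l₁, n₁ + t)).tsum_eq.symm
  rw [h1]
  unfold bb
  apply tendsto_tsum_of_dominated_convergence (bound := dom x) hx.summable_dom
  · rintro ⟨l, n⟩
    simp only
    apply Tendsto.const_mul
    apply Tendsto.sub
    · apply tendsto_const_nhds.congr'
      filter_upwards [eventually_ge_atTop (s l), eventually_ge_atTop (n + 2 * l ^ 2)] with t h2 h3
      rw [al_limit l n l₁ n₁ t h2 h3]
    · apply tendsto_const_nhds.congr'
      have h4 : ∀ᶠ t in atTop, ∀ ν ∈ (pr l n).support,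
          s ν.1 ≤ t ∧ ν.2 + 2 * ν.1 ^ 2 ≤ t := by
        rw [Filter.eventually_all_finset]
        intro ν _
        exact (eventually_ge_atTop _).and (eventually_ge_atTop _)
      filter_upwards [h4] with t h5
      rw [sh_apply, Finsupp.sum, Finsupp.finsetSum_apply]
      have h6 : ∀ ν ∈ (pr l n).support, (pr l n ν • al (ν.1, ν.2 + t)) (l₁, n₁ + t) =
          pr l n ν * (if ν = (l₁, n₁) then 1 else 0) := by
        intro ν hν
        rw [Finsupp.smul_apply, smul_eq_mul, al_limit _ _ _ _ _ (h5 ν hν).1 (h5 ν hν).2]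
      rw [Finset.sum_congr rfl h6]
      simp only [mul_ite, mul_one, mul_zero, Finset.sum_ite_eq', Finsupp.mem_support_iff, ne_eq,
        ite_not]
      split_ifs with h7
      · rw [h7]
      · rfl
  · filter_upwards with t
    rintro ⟨l, n⟩
    unfold dom
    rw [norm_mul, norm_div, Real.norm_eq_abs, Real.norm_eq_abs, abs_of_pos (wt_pos _)]
    apply mul_le_mul_of_nonneg_left _ (div_nonneg (abs_nonneg _) (wt_pos _).le)
    refine (norm_sub_le _ _).trans ?_
    rw [Real.norm_eq_abs, Real.norm_eq_abs]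
    have h2 := al_bound l n l₁ n₁ t
    have h3 := sh_bound l n l₁ n₁ t
    simp only at h2 h3 ⊢
    linarith

lemma bb_add {x y : X} (hx : FR x) (hy : FR y) (hxy : FR (x + y)) (μ : ℕ × ℕ) :
    bb (x + y) μ = bb x μ + bb y μ := by
  obtain ⟨l, n⟩ := μ
  apply tendsto_nhds_unique (bb_limit hxy l n)
  have h := (bb_limit hx l n).add (bb_limit hy l n)
  refine h.congr (fun t => ?_)
  rw [map_add, lp.coeFn_add, Pi.add_apply, add_div]

lemma al_summable {x : X} (hx : FR x) (μ : ℕ × ℕ) :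
    Summable (fun ν : ℕ × ℕ => x ν / wt ν * al ν μ) := by
  apply Summable.of_norm_bounded (g := dom x) hx.summable_dom
  rintro ⟨l, n⟩
  unfold dom
  rw [norm_mul, norm_div, Real.norm_eq_abs, Real.norm_eq_abs, abs_of_pos (wt_pos _)]
  apply mul_le_mul_of_nonneg_left _ (div_nonneg (abs_nonneg _) (wt_pos _).le)
  have h1 := al_bound l n μ.1 μ.2 0
  have h2 := E_nonneg (cd l n)
  rw [Real.norm_eq_abs]
  simp only [Nat.add_zero] at h1 ⊢
  linarith

lemma hasSum_delta (x : X) (ν : ℕ × ℕ) :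
    HasSum (fun ν' : ℕ × ℕ => x ν' / wt ν' * (if ν' = ν then (1:ℝ) else 0)) (x ν / wt ν) := by
  have h := hasSum_single (f := fun ν' : ℕ × ℕ => x ν' / wt ν' * (if ν' = ν then (1:ℝ) else 0)) ν
    (fun ν' hν' => by simp only; rw [if_neg hν', mul_zero])
  simpa using h

/-- inversion: vanishing of the coefficients of types `≥ μ.1` kills the coordinate `μ` -/
lemma coord_zero {x : X} (hx : FR x) (μ : ℕ × ℕ) (h : ∀ ν : ℕ × ℕ, μ.1 ≤ ν.1 → bb x ν = 0) :
    x μ = 0 := by
  have hsum : Summable (Function.uncurry fun ν' ν : ℕ × ℕ =>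
      x ν' / wt ν' * (pr ν'.1 ν'.2 ν * al ν μ)) := by
    have hfin : ∀ ν' : ℕ × ℕ, HasSum (fun ν : ℕ × ℕ =>
        ‖x ν' / wt ν' * (pr ν'.1 ν'.2 ν * al ν μ)‖)
        (∑ ν ∈ (pr ν'.1 ν'.2).support, ‖x ν' / wt ν' * (pr ν'.1 ν'.2 ν * al ν μ)‖) := by
      intro ν'
      apply hasSum_sum_of_ne_finset_zero
      intro ν hν
      rw [Finsupp.notMem_support_iff.1 hν]; simp
    apply Summable.of_norm
    rw [summable_prod_of_nonneg (fun _ => norm_nonneg _)]
    refine ⟨fun ν' => (hfin ν').summable, ?_⟩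
    apply Summable.of_nonneg_of_le _ _ hx.summable_dom
    · intro ν'; exact tsum_nonneg fun _ => norm_nonneg _
    · intro ν'
      have h1 := (hfin ν').tsum_eq
      simp only [Function.uncurry] at h1 ⊢
      rw [h1]
      obtain ⟨l, n⟩ := ν'
      have h2 := sum_abs_le l n 0 μ.1 μ.2
      have h3 : ∑ ν ∈ (pr l n).support, ‖x (l, n) / wt (l, n) * (pr l n ν * al ν μ)‖ =
          |x (l, n)| / wt (l, n) * ∑ ν ∈ (pr l n).support, |pr l n ν| * |al ν μ| := by
        rw [Finset.mul_sum]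
        apply Finset.sum_congr rfl
        intro ν _
        rw [norm_mul, norm_mul, norm_div, Real.norm_eq_abs, Real.norm_eq_abs, Real.norm_eq_abs,
          Real.norm_eq_abs, abs_of_pos (wt_pos _)]
      simp only at h3 ⊢
      rw [h3]
      unfold dom
      apply mul_le_mul_of_nonneg_left _ (div_nonneg (abs_nonneg _) (wt_pos _).le)
      have h4 := E_nonneg (cd l n)
      simp only [Nat.add_zero] at h2 ⊢
      linarith
  have hcomm := hsum.tsum_comm
  -- left: sum over ν' inside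
  have hl : ∀ ν' : ℕ × ℕ, ∑' ν : ℕ × ℕ, x ν' / wt ν' * (pr ν'.1 ν'.2 ν * al ν μ) =
      x ν' / wt ν' * al ν' μ - x ν' / wt ν' * (if ν' = μ then 1 else 0) := by
    rintro ⟨l, n⟩
    rw [tsum_mul_left]
    have h1 : ∑' ν : ℕ × ℕ, pr l n ν * al ν μ = sh al 0 (pr l n) μ := by
      rw [tsum_eq_sum (s := (pr l n).support)]
      · rw [sh_apply, Finsupp.sum, Finsupp.finsetSum_apply]
        apply Finset.sum_congr rfl
        intro ν _
        rw [Finsupp.smul_apply, smul_eq_mul, Nat.add_zero]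
      · intro ν hν
        rw [Finsupp.notMem_support_iff.1 hν, zero_mul]
    simp only
    rw [h1, al_eq l n, Finsupp.add_apply, Finsupp.single_apply]
    ring
  have hr : ∀ ν : ℕ × ℕ, ∑' ν' : ℕ × ℕ, x ν' / wt ν' * (pr ν'.1 ν'.2 ν * al ν μ) =
      (x ν / wt ν - bb x ν) * al ν μ := by
    intro ν
    have h1 : ∀ ν' : ℕ × ℕ, x ν' / wt ν' * (pr ν'.1 ν'.2 ν * al ν μ) =
        (x ν' / wt ν' * (if ν' = ν then 1 else 0) -
        x ν' / wt ν' * ((if ν' = ν then 1 else 0) - pr ν'.1 ν'.2 ν)) * al ν μ := by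
      intro ν'; ring
    simp_rw [h1]
    rw [tsum_mul_right]
    congr 1
    exact ((hasSum_delta x ν).sub (bb_summable hx ν).hasSum).tsum_eq
  simp_rw [hl, hr] at hcomm
  have h1 : ∀ ν : ℕ × ℕ, (x ν / wt ν - bb x ν) * al ν μ = x ν / wt ν * al ν μ := by
    intro ν
    by_cases h0 : al ν μ = 0
    · rw [h0, mul_zero, mul_zero]
    · obtain ⟨l, n⟩ := ν
      rw [h (l, n) (al_supp l n μ h0).1, sub_zero]
  simp_rw [h1] at hcomm
  rw [(al_summable hx μ).tsum_sub (hasSum_delta x μ).summable, (hasSum_delta x μ).tsum_eq] at hcomm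
  have h2 : x μ / wt μ = 0 := by linarith
  rcases div_eq_zero_iff.1 h2 with h3 | h3
  · exact h3
  · exact absurd h3 (wt_pos μ).ne'

/-- (d): nonzero coefficients travel with windows of large code -/
lemma travel {x : X} (hx : FR x) {l n : ℕ} (hb : bb x (l, n) ≠ 0) (K : ℕ) :
    ∃ ε > 0, ∃ t₀, ∀ t ≥ t₀, ‖(T ^ t) x - x‖ < ε →
      ∃ c a, InWin l (n + t) c a ∧ K ≤ c ∧ a < c := by
  set β := |bb x (l, n)| with hβ
  have hβ0 : 0 < β := abs_pos.2 hb
  have hε : 0 < β / (4 * 2 ^ K) := by positivity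
  refine ⟨β / (4 * 2 ^ K) / 2, by positivity, ?_⟩
  have h1 : ∀ᶠ t in atTop, β / 2 < |(T ^ t) x (l, n + t) / wt (l, n + t)| := by
    have := (bb_limit hx l n).abs
    exact this.eventually_const_lt (by rw [← hβ]; linarith)
  have h2 : ∀ᶠ t in atTop, |x (l, n + t)| < β / (4 * 2 ^ K) / 2 := by
    have h3 : Tendsto (fun ν : ℕ × ℕ => |x ν|) cofinite (𝓝 0) :=
      (summable_abs x).tendsto_cofinite_zero
    have h4 : Tendsto (fun t : ℕ => (l, n + t)) atTop (cofinite : Filter (ℕ × ℕ)) := by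
      rw [← Nat.cofinite_eq_atTop]
      apply Function.Injective.tendsto_cofinite
      intro a b hab
      simpa using hab
    have h5 := h3.comp h4
    exact h5.eventually_lt_const (by positivity)
  obtain ⟨t₀, ht₀⟩ := eventually_atTop.1 (h1.and h2)
  refine ⟨t₀, fun t ht hret => ?_⟩
  obtain ⟨h3, h4⟩ := ht₀ t ht
  have hw := wt_pos (l, n + t)
  have h5 : |(T ^ t) x (l, n + t)| < β / (4 * 2 ^ K) := by
    have h6 : |((T ^ t) x - x) (l, n + t)| ≤ ‖(T ^ t) x - x‖ := abs_le_norm _ _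
    rw [lp.coeFn_sub, Pi.sub_apply] at h6
    have h7 : |(T ^ t) x (l, n + t)| ≤ |(T ^ t) x (l, n + t) - x (l, n + t)| + |x (l, n + t)| := by
      have := abs_add_le ((T ^ t) x (l, n + t) - x (l, n + t)) (x (l, n + t))
      rwa [sub_add_cancel] at this
    linarith
  rw [abs_div, abs_of_pos hw, lt_div_iff₀ hw] at h3
  have h6 : wt (l, n + t) < 1 / 2 ^ K := by
    have h7 : β / 2 * wt (l, n + t) < β / (4 * 2 ^ K) := h3.trans h5
    have h8 : β / (4 * 2 ^ K) = β / 2 * (1 / 2 ^ K) / 2 := by field_simp; ring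
    have h9 : 0 < β / 2 * (1 / 2 ^ K) := by positivity
    have h10 : β / 2 * wt (l, n + t) < β / 2 * (1 / 2 ^ K) := by rw [h8] at h7; linarith
    exact lt_of_mul_lt_mul_left h10 (by positivity)
  have h2K : (1:ℝ) ≤ 2 ^ K := one_le_pow₀ (by norm_num)
  have hK1 : (1:ℝ) / 2 ^ K ≤ 1 := by rw [div_le_one (by positivity)]; exact h2K
  by_cases hW : Win l (n + t)
  · obtain ⟨⟨c, a⟩, h⟩ := hW
    simp only at h
    refine ⟨c, a, h, ?_⟩
    rw [wt_inWin h, div_lt_div_iff₀ (by positivity) (by positivity), one_mul, ← pow_add] at h6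
    have h7 : min a (s c) + K < c := (pow_lt_pow_iff_right₀ (by norm_num : (1:ℝ) < 2)).1 h6
    have h8 := c_lt_s c
    omega
  · rw [wt_free hW] at h6
    have := one_le_D l
    linarith

/-- all nonzero coefficients of a frequently recurrent vector have the same type -/
lemma same_type {x : X} (hx : FR x) {μ μ' : ℕ × ℕ} (h : bb x μ ≠ 0) (h' : bb x μ' ≠ 0) :
    μ.1 = μ'.1 := by
  obtain ⟨l, n⟩ := μ
  obtain ⟨l', n'⟩ := μ'
  by_contra hne
  simp only at hne
  obtain ⟨ε, hε, t₀, ht₀⟩ := travel hx h (n + n')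
  obtain ⟨ε', hε', t₁, ht₁⟩ := travel hx h' (n + n')
  obtain ⟨t, ht, hret⟩ := hx.return_large (lt_min hε hε') (max (max t₀ t₁) (max (W l) (W l')))
  have g0 : t₀ ≤ t := (le_max_left _ _).trans ((le_max_left _ _).trans ht)
  have g1 : t₁ ≤ t := (le_max_right _ _).trans ((le_max_left _ _).trans ht)
  have g2 : W l ≤ t := (le_max_left _ _).trans ((le_max_right _ _).trans ht)
  have g3 : W l' ≤ t := (le_max_right _ _).trans ((le_max_right _ _).trans ht)
  obtain ⟨c, a, h1, h2, h3⟩ := ht₀ t g0 (hret.trans_le (min_le_left _ _))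
  obtain ⟨c', a', h1', h2', h3'⟩ := ht₁ t g1 (hret.trans_le (min_le_right _ _))
  have ha : a < n + t := by
    by_contra hcon
    obtain ⟨h4, h5⟩ := h1.init hcon
    have := h1.1
    subst h4 h5
    omega
  have ha' : a' < n' + t := by
    by_contra hcon
    obtain ⟨h4, h5⟩ := h1'.init hcon
    have := h1'.1
    subst h4 h5
    omega
  have r := h1.ret ha
  have r' := h1'.ret ha'
  have hcc : c ≠ c' := by
    intro hcc
    apply hne
    rw [← r.2.1, ← r'.2.1, hcc]
  have hsep := sep r.2.2 r'.2.2 (fun hh => hcc hh.1)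
  have hm := le_max_left c c'
  have hm' := le_max_right c c'
  have h4 := s_add_s_le_W (max c c')
  have h5 := c_lt_s (max c c')
  omega

/-- there is no dense subspace of frequently recurrent vectors -/
lemma no_dense (M : Submodule ℝ X) (hM : Dense (M : Set X)) (hFR : (M : Set X) ⊆ {x : X | FR x}) :
    False := by
  have key : ∃ l, ∀ m ∈ M, ∀ ν, bb m ν ≠ 0 → ν.1 = l := by
    by_cases hex : ∃ m ∈ M, ∃ ν, bb m ν ≠ 0
    · obtain ⟨m₀, hm₀, ν₀, hν₀⟩ := hex
      refine ⟨ν₀.1, fun m hm ν hν => ?_⟩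
      by_contra hne
      have hb1 : bb m₀ ν = 0 := by
        by_contra hcon
        exact hne (same_type (hFR hm₀) hcon hν₀)
      have hb2 : bb m ν₀ = 0 := by
        by_contra hcon
        exact hne (same_type (hFR hm) hν hcon)
      have hsum := M.add_mem hm hm₀
      have hb3 : bb (m + m₀) ν ≠ 0 := by
        rw [bb_add (hFR hm) (hFR hm₀) (hFR hsum), hb1, add_zero]; exact hν
      have hb4 : bb (m + m₀) ν₀ ≠ 0 := by
        rw [bb_add (hFR hm) (hFR hm₀) (hFR hsum), hb2, zero_add]; exact hν₀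
      exact hne (same_type (hFR hsum) hb3 hb4)
    · push Not at hex
      exact ⟨0, fun m hm ν hν => absurd (hex m hm ν) hν⟩
  obtain ⟨l, hl⟩ := key
  have h1 : (M : Set X) ⊆ {x : X | ev (l + 1, 0) x = 0} := by
    intro m hm
    rw [Set.mem_ofPred_eq, ev_apply]
    apply coord_zero (hFR hm)
    intro ν hν
    by_contra hcon
    have := hl m hm ν hcon
    simp only at hν
    omega
  have h2 : IsClosed {x : X | ev (l + 1, 0) x = 0} :=
    isClosed_eq (ev (l + 1, 0)).continuous continuous_const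
  have h3 : e (l + 1, 0) ∈ {x : X | ev (l + 1, 0) x = 0} := by
    have := h2.closure_subset_iff.2 h1
    apply this
    rw [hM.closure_eq]
    trivial
  rw [Set.mem_ofPred_eq, ev_apply, e_apply, if_pos rfl] at h3
  exact one_ne_zero h3

end Pool.Agent.FRecEx
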