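import Mathlib

set_option autoImplicit false

namespace Pool.Agent.FRecEx

/-- real `ℓ¹` over the nodes -/
abbrev X := lp (fun _ : ℕ × ℕ => ℝ) 1

/-- unit vectors -/
noncomputable def e (ν : ℕ × ℕ) : X := lp.single 1 ν (1:ℝ)

lemma norm_e (ν : ℕ × ℕ) : ‖e ν‖ = 1 := by
  unfold e
  rw [lp.norm_single (by norm_num)]
  simp

lemma e_apply (ν μ : ℕ × ℕ) : e ν μ = if μ = ν then 1 else 0 := by
  unfold e
  split_ifs with h
  · subst h; exact lp.single_apply_self _ _ _
  · exact lp.single_apply_ne _ _ _ h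

lemma single_eq_smul (ν : ℕ × ℕ) (r : ℝ) : (lp.single 1 ν r : X) = r • e ν := by
  unfold e
  rw [← lp.single_smul]
  simp

lemma hasSum_e (x : X) : HasSum (fun ν => x ν • e ν) x := by
  have h := lp.hasSum_single (p := 1) (by norm_num) x
  simpa only [single_eq_smul] using h

lemma hasSum_abs (x : X) : HasSum (fun ν => |x ν|) ‖x‖ := by
  have h := lp.hasSum_norm (p := 1) (by norm_num) x
  simpa using h

lemma summable_abs (x : X) : Summable (fun ν => |x ν|) := (hasSum_abs x).summable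

lemma abs_le_norm (x : X) (ν : ℕ × ℕ) : |x ν| ≤ ‖x‖ :=
  lp.norm_apply_le_norm (by norm_num) x ν

section
variable {F : Type*} [NormedAddCommGroup F] [NormedSpace ℝ F]

lemma hasSum_map (Φ : X →L[ℝ] F) (x : X) : HasSum (fun ν => x ν • Φ (e ν)) (Φ x) := by
  have h := (hasSum_e x).mapL Φ
  simpa only [map_smul] using h

variable [CompleteSpace F]

lemma summable_lift (v : ℕ × ℕ → F) {C : ℝ} (h : ∀ ν, ‖v ν‖ ≤ C) (x : X) :
    Summable (fun ν => x ν • v ν) := by
  apply Summable.of_norm_bounded (g := fun ν => |x ν| * C) ((summable_abs x).mul_right C)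
  intro ν
  rw [norm_smul, Real.norm_eq_abs]
  exact mul_le_mul_of_nonneg_left (h ν) (abs_nonneg _)

/-- the operator with prescribed values on the unit vectors -/
noncomputable def lift (v : ℕ × ℕ → F) (C : ℝ) (h : ∀ ν, ‖v ν‖ ≤ C) : X →L[ℝ] F :=
  LinearMap.mkContinuous
    { toFun := fun x => ∑' ν, x ν • v ν
      map_add' := by
        intro x y
        rw [← (summable_lift v h x).tsum_add (summable_lift v h y)]
        apply tsum_congr
        intro ν
        rw [lp.coeFn_add, Pi.add_apply, add_smul]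
      map_smul' := by
        intro r x
        rw [RingHom.id_apply, ← (summable_lift v h x).tsum_const_smul r]
        apply tsum_congr
        intro ν
        rw [lp.coeFn_smul, Pi.smul_apply, smul_eq_mul, mul_smul] } C (by
    intro x
    simp only [LinearMap.coe_mk, AddHom.coe_mk]
    have h1 : HasSum (fun ν => |x ν| * C) (‖x‖ * C) := (hasSum_abs x).mul_right C
    rw [mul_comm]
    apply tsum_of_norm_bounded h1
    intro ν
    rw [norm_smul, Real.norm_eq_abs]
    exact mul_le_mul_of_nonneg_left (h ν) (abs_nonneg _))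

lemma lift_apply (v : ℕ × ℕ → F) (C : ℝ) (h : ∀ ν, ‖v ν‖ ≤ C) (x : X) :
    lift v C h x = ∑' ν, x ν • v ν := rfl

lemma lift_e (v : ℕ × ℕ → F) (C : ℝ) (h : ∀ ν, ‖v ν‖ ≤ C) (ν : ℕ × ℕ) :
    lift v C h (e ν) = v ν := by
  rw [lift_apply, tsum_eq_single ν]
  · rw [e_apply, if_pos rfl, one_smul]
  · intro μ hμ
    rw [e_apply, if_neg hμ, zero_smul]

lemma norm_lift_le (v : ℕ × ℕ → F) (C : ℝ) (h : ∀ ν, ‖v ν‖ ≤ C) (hC : 0 ≤ C) :
    ‖lift v C h‖ ≤ C := LinearMap.mkContinuous_norm_le _ hC _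

end

/-- coordinate functional -/
noncomputable def ev (μ : ℕ × ℕ) : X →L[ℝ] ℝ := lp.evalCLM ℝ (fun _ : ℕ × ℕ => ℝ) 1 μ

lemma ev_apply (μ : ℕ × ℕ) (x : X) : ev μ x = x μ := rfl

end Pool.Agent.FRecEx
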