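import Pool.Agent.Lib.MP_7b2682_an.Rec

/-!
No dense subspace consists of frequently recurrent vectors of `T` (MP_7b2682_an).
-/

set_option autoImplicit false
open Topology Filter

namespace Pool.Agent.MP7b2682

/-! ### the ancestor indicator -/

/-- `ind q p = 1` if `q` is `p` or an ancestor of `p`, and `0` otherwise. -/
noncomputable def ind (q p : Pt) : ℝ := dl p q / w q

theorem dl_apply (q p : Pt) : dl p q = w q * ind q p := by
  unfold ind
  have := (w_pos q).ne'
  field_simp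

theorem ind_free (q : Pt) {p : Pt} (h : ¬ Atd p) : ind q p = if q = p then 1 else 0 := by
  unfold ind
  rw [dl_free h, lp.coeFn_smul, Pi.smul_apply, ep_apply, smul_eq_mul]
  have := (w_pos q).ne'
  by_cases hqp : q = p
  · subst hqp; simp [this]
  · simp [hqp]

theorem ind_atd (q : Pt) {p : Pt} (h : Atd p) :
    ind q p = (if q = p then 1 else 0) + ind q (pp p) := by
  unfold ind
  rw [dl_atd h, lp.coeFn_add, Pi.add_apply, lp.coeFn_smul, Pi.smul_apply, ep_apply, smul_eq_mul,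
    add_div]
  have := (w_pos q).ne'
  by_cases hqp : q = p
  · subst hqp; simp [this]
  · simp [hqp]

theorem ind_rk' (n : ℕ) : ∀ p q : Pt, rk p = n → rk p < rk q → ind q p = 0 := by
  induction n using Nat.strong_induction_on with
  | _ n ih =>
    intro p q hp hq
    have hne : q ≠ p := by rintro rfl; exact lt_irrefl _ hq
    by_cases h : Atd p
    · have h1 := rk_pp h
      rw [ind_atd q h, if_neg hne, zero_add]
      exact ih (rk (pp p)) (by omega) (pp p) q rfl (by omega)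
    · rw [ind_free q h, if_neg hne]

theorem ind_rk {p q : Pt} (h : rk p < rk q) : ind q p = 0 := ind_rk' (rk p) p q rfl h

theorem ind_self (p : Pt) : ind p p = 1 := by
  by_cases h : Atd p
  · rw [ind_atd p h, if_pos rfl, ind_rk (rk_pp h), add_zero]
  · rw [ind_free p h, if_pos rfl]

theorem ind_cases' (n : ℕ) : ∀ p q : Pt, rk p = n → ind q p = 0 ∨ ind q p = 1 := by
  induction n using Nat.strong_induction_on with
  | _ n ih =>
    intro p q hp
    by_cases hqp : q = p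
    · subst hqp; right; exact ind_self q
    · by_cases h : Atd p
      · have h1 := rk_pp h
        rw [ind_atd q h, if_neg hqp, zero_add]
        exact ih (rk (pp p)) (by omega) (pp p) q rfl
      · left; rw [ind_free q h, if_neg hqp]

theorem ind_cases (q p : Pt) : ind q p = 0 ∨ ind q p = 1 := ind_cases' (rk p) p q rfl

theorem norm_ind_le (q p : Pt) : ‖ind q p‖ ≤ 1 := by
  rcases ind_cases q p with h | h <;> simp [h]

theorem ind_ne_zero {q p : Pt} (h : ind q p ≠ 0) : q = p ∨ (Atd p ∧ ind q (pp p) ≠ 0) := by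
  by_cases hqp : q = p
  · exact Or.inl hqp
  · right
    by_cases hA : Atd p
    · rw [ind_atd q hA, if_neg hqp, zero_add] at h
      exact ⟨hA, h⟩
    · rw [ind_free q hA, if_neg hqp] at h
      exact absurd rfl h

theorem ind_snd_le' (n : ℕ) : ∀ p q : Pt, rk p = n → ind q p ≠ 0 → q.2 ≤ p.2 := by
  induction n using Nat.strong_induction_on with
  | _ n ih =>
    intro p q hp h
    rcases ind_ne_zero h with rfl | ⟨hA, h1⟩
    · exact le_rfl
    · have h2 := rk_pp hA
      have h3 := ih (rk (pp p)) (by omega) (pp p) q rfl h1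
      exact h3.trans (po_le hA)

theorem ind_snd_le {p q : Pt} (h : ind q p ≠ 0) : q.2 ≤ p.2 := ind_snd_le' (rk p) p q rfl h

theorem pl_inr {p : Pt} (h : Atd p) (k : ℕ) : pl p = Sum.inr k ↔ p.1 = Sum.inr k := by
  rcases h with h | h
  · rw [pl_ini h]
    constructor
    · intro h1; simp [parL] at h1
    · intro h1
      exfalso
      apply h.2
      rw [h1]; rfl
  · rw [pl_att h]

theorem ind_label' (n : ℕ) : ∀ p q : Pt, rk p = n → ind q p ≠ 0 →
    ∀ k, (p.1 = Sum.inr k ↔ q.1 = Sum.inr k) := by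
  induction n using Nat.strong_induction_on with
  | _ n ih =>
    intro p q hp h k
    rcases ind_ne_zero h with rfl | ⟨hA, h1⟩
    · exact Iff.rfl
    · have h2 := rk_pp hA
      have h3 := ih (rk (pp p)) (by omega) (pp p) q rfl h1 k
      rw [← h3]
      exact (pl_inr hA k).symm

theorem ind_label {p q : Pt} (h : ind q p ≠ 0) (k : ℕ) :
    p.1 = Sum.inr k ↔ q.1 = Sum.inr k := ind_label' (rk p) p q rfl h k

/-! ### the functionals `J` and the operator `U` -/

open Classical in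
/-- columns of `U` -/
noncomputable def ucol (p : Pt) : L1 Pt := ep p - if Atd p then ep (pp p) else 0

theorem ucol_atd {p : Pt} (h : Atd p) : ucol p = ep p - ep (pp p) := by simp [ucol, h]
theorem ucol_free {p : Pt} (h : ¬ Atd p) : ucol p = ep p := by simp [ucol, h]

theorem norm_ucol (p : Pt) : ‖ucol p‖ ≤ 2 := by
  by_cases h : Atd p
  · rw [ucol_atd h]
    refine (norm_sub_le _ _).trans ?_
    rw [norm_ep, norm_ep]; norm_num
  · rw [ucol_free h, norm_ep]; norm_num

/-- the operator `ε_p ↦ ε_p - ε_{parent p}` -/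
noncomputable def U : L1 Pt →L[ℝ] L1 Pt := opc ucol 2 norm_ucol

theorem U_ep (p : Pt) : U (ep p) = ucol p := opc_ep _ _ _ _

/-- the functional `y ↦ ∑ y_p ind(q, τ^M p)` -/
noncomputable def J (M : ℕ) (q : Pt) : L1 Pt →L[ℝ] ℝ :=
  opc (fun p => ind q (tau^[M] p)) 1 (fun _ => norm_ind_le q _)

theorem J_ep (M : ℕ) (q p : Pt) : J M q (ep p) = ind q (tau^[M] p) := opc_ep _ _ _ _

theorem J_apply (M : ℕ) (q : Pt) (y : L1 Pt) : J M q y = ∑' p, y p • ind q (tau^[M] p) := rfl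

theorem T_pow_dl2 (M : ℕ) (p : Pt) : (T ^ M) (dl p) = dl (tau^[M] p) := by
  rw [iter_tau]
  exact T_pow_dl M p.1 p.2

theorem T_pow_ep_apply (M : ℕ) (q e : Pt) :
    ((T ^ M) (ep e)) q = (w e)⁻¹ * (w q * J M q (U (ep e))) := by
  have hw := (w_pos e).ne'
  have h : w e * ((T ^ M) (ep e)) q = w q * J M q (U (ep e)) := by
    have h1 : w e * ((T ^ M) (ep e)) q = ((T ^ M) (w e • ep e)) q := by
      rw [map_smul, lp.coeFn_smul, Pi.smul_apply, smul_eq_mul]
    rw [h1, U_ep]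
    by_cases hA : Atd e
    · have h2 : w e • (ep e : L1 Pt) = dl e - dl (pp e) := by rw [dl_atd hA]; abel
      rw [h2, map_sub, T_pow_dl2, T_pow_dl2, lp.coeFn_sub, Pi.sub_apply, dl_apply, dl_apply,
        ucol_atd hA, map_sub, J_ep, J_ep]
      ring
    · rw [← dl_free hA, T_pow_dl2, dl_apply, ucol_free hA, J_ep]
  rw [← h, ← mul_assoc, inv_mul_cancel₀ hw, one_mul]

/-- the coordinates `z_e / w_e` are absolutely summable -/
def HB (z : L1 Pt) : Prop := Summable (fun e => |z e / w e|)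

/-- the vector `β(z)` -/
noncomputable def bet (z : L1 Pt) (h : HB z) : L1 Pt := U (mkL1 (fun e => z e / w e) h)

theorem bet_add_smul {v u : L1 Pt} (t : ℝ) (hv : HB v) (hu : HB u) (hz : HB (v + t • u)) :
    bet (v + t • u) hz = bet v hv + t • bet u hu := by
  unfold bet
  rw [← map_smul, ← map_add]
  congr 1
  apply lp.ext
  funext e
  change (v e + t * u e) / w e = v e / w e + t * (u e / w e)
  ring

/-- (L2) -/
theorem T_pow_apply (z : L1 Pt) (h : HB z) (M : ℕ) (q : Pt) :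
    ((T ^ M) z) q = w q * J M q (bet z h) := by
  have h1 := (hasSum_ep z).mapL ((ev q).comp (T ^ M))
  have h2 := ((hasSum_ep (mkL1 (fun e => z e / w e) h)).mapL ((J M q).comp U)).mul_left (w q)
  have h3 : (fun e => ((ev q).comp (T ^ M)) (z e • (ep e : L1 Pt))) =
      fun e => w q * ((J M q).comp U)
        ((mkL1 (fun e => z e / w e) h) e • (ep e : L1 Pt)) := by
    funext e
    rw [map_smul, map_smul, ContinuousLinearMap.comp_apply, ContinuousLinearMap.comp_apply,
      ev_apply, T_pow_ep_apply]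
    change z e * ((w e)⁻¹ * (w q * J M q (U (ep e)))) =
      w q * ((z e / w e) * J M q (U (ep e)))
    ring
  rw [h3] at h1
  exact h1.unique h2

/-- (L3) -/
theorem coord_eq (z : L1 Pt) (h : HB z) (q : Pt) : z q = w q * J 0 q (bet z h) := by
  have := T_pow_apply z h 0 q
  simpa using this

theorem exists_desc {z : L1 Pt} (h : HB z) {q : Pt} (hq : z q ≠ 0) :
    ∃ p, ind q p ≠ 0 ∧ bet z h p ≠ 0 := by
  by_contra hcon
  push Not at hcon
  apply hq
  rw [coord_eq z h q, J_apply]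
  have : ∀ p, bet z h p • ind q (tau^[0] p) = 0 := by
    intro p
    rw [Function.iterate_zero, id]
    by_cases hp : ind q p = 0
    · rw [hp, smul_zero]
    · rw [hcon p hp, zero_smul]
  rw [tsum_congr this, tsum_zero, mul_zero]

/-! ### convergence -/

theorem ind_iter_eventually {p0 p : Pt} (hne : p ≠ p0) :
    ∀ᶠ M in atTop, ind (tau^[M] p0) (tau^[M] p) = 0 := by
  filter_upwards [eventually_ge_atTop (max p.2 (kap (th p.1)))] with M hM
  have hM1 : p.2 ≤ M := (le_max_left _ _).trans hM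
  have hM2 : kap (th p.1) ≤ M := (le_max_right _ _).trans hM
  by_contra hcon
  rw [iter_tau, iter_tau] at hcon
  rcases ind_ne_zero hcon with h | ⟨hA, h⟩
  · apply hne
    have h1 := congrArg Prod.fst h
    have h2 := congrArg Prod.snd h
    simp only at h1 h2
    exact Prod.ext h1.symm (by omega)
  · have h1 := ind_snd_le h
    have hat : Att (p.1, p.2 + M) := by
      rcases hA with hi | ha
      · exfalso
        have h2 : p.2 + M < kap (th p.1) := hi.1
        omega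
      · exact ha
    have h3 : (pp (p.1, p.2 + M)).2 = (p.2 + M) % kap (ql (p.2 + M)) := po_att hat
    rw [h3] at h1
    have h4 := pos_lt_kap (p.2 + M)
    have h5 := two_kap_lt hat.1
    simp only at h1 h5
    omega

theorem tendsto_J (y : L1 Pt) (p0 : Pt) :
    Tendsto (fun M => J M (tau^[M] p0) y) atTop (𝓝 (y p0)) := by
  have h := tendsto_tsum_of_dominated_convergence (𝓕 := atTop)
    (f := fun M p => y p • ind (tau^[M] p0) (tau^[M] p))
    (g := fun p => if p = p0 then y p0 else 0) (bound := fun p => |y p|) (summable_abs y)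
    (by
      intro p
      by_cases hp : p = p0
      · subst hp
        simp only [ind_self, if_true, smul_eq_mul, mul_one]
        exact tendsto_const_nhds
      · simp only [if_neg hp]
        apply tendsto_const_nhds.congr'
        filter_upwards [ind_iter_eventually hp] with M hM
        rw [hM, smul_zero])
    (by
      filter_upwards with M p
      rw [norm_smul, Real.norm_eq_abs]
      exact mul_le_of_le_one_right (abs_nonneg _) (norm_ind_le _ _))
  rw [tsum_ite_eq] at h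
  exact h

/-- large weights force the vector out of the unit ball -/
theorem w_bounded {z : L1 Pt} (h : HB z) {C : ℝ} {p0 : Pt} (hp : bet z h p0 ≠ 0) :
    ∃ H : ℝ, ∃ M0 : ℕ, ∀ M, M0 ≤ M → ‖(T ^ M) z‖ ≤ C → w (tau^[M] p0) ≤ H := by
  have h1 := (tendsto_J (bet z h) p0).abs
  have hpos : 0 < |bet z h p0| := abs_pos.mpr hp
  have h2 := (tendsto_order.1 h1).1 (|bet z h p0| / 2) (by linarith)
  obtain ⟨M0, hM0⟩ := eventually_atTop.1 h2
  refine ⟨C / (|bet z h p0| / 2), M0, fun M hM hC => ?_⟩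
  have h3 := hM0 M hM
  have h4 := abs_apply_le_norm ((T ^ M) z) (tau^[M] p0)
  rw [T_pow_apply z h, abs_mul, abs_of_pos (w_pos _)] at h4
  rw [le_div_iff₀ (by positivity)]
  have h5 := w_pos (tau^[M] p0)
  calc w (tau^[M] p0) * (|bet z h p0| / 2)
      ≤ w (tau^[M] p0) * |J M (tau^[M] p0) (bet z h)| := mul_le_mul_of_nonneg_left h3.le h5.le
    _ ≤ ‖(T ^ M) z‖ := h4
    _ ≤ C := hC

/-! ### (L1): summability for frequently recurrent vectors -/

/-- what we use of frequent recurrence -/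
def Fr (z : L1 Pt) (δ : ℝ) (N₀ : ℕ) : Prop :=
  0 < δ ∧ ∀ N : ℕ, N₀ ≤ N →
    δ * (N : ℝ) ≤ (({n : ℕ | 1 ≤ n ∧ n ≤ N ∧ (T ^ n) z ∈ Metric.ball z 1}.ncard : ℕ) : ℝ)

theorem IsFRec.fr {z : L1 Pt} (h : IsFRec z) : ∃ δ N₀, Fr z δ N₀ := by
  obtain ⟨δ, h1, N₀, h2⟩ := h (Metric.ball z 1) (Metric.ball_mem_nhds z one_pos)
  exact ⟨δ, N₀, h1, h2⟩

theorem norm_le_of_ball {z x : L1 Pt} (h : x ∈ Metric.ball z 1) : ‖x‖ ≤ ‖z‖ + 1 := by
  rw [Metric.mem_ball, dist_eq_norm] at h
  have : x = (x - z) + z := by abel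
  calc ‖x‖ = ‖(x - z) + z‖ := by rw [← this]
    _ ≤ ‖x - z‖ + ‖z‖ := norm_add_le _ _
    _ ≤ ‖z‖ + 1 := by linarith

theorem good_M {z : L1 Pt} {δ : ℝ} {N₀ : ℕ} (h : Fr z δ N₀) :
    ∃ q0 : ℕ, ∀ q, q0 ≤ q → ∃ M, 2 * q < M ∧ M + q + 1 ≤ kap q ∧ ‖(T ^ M) z‖ ≤ ‖z‖ + 1 := by
  obtain ⟨hδ, hF⟩ := h
  obtain ⟨k, hk⟩ := exists_nat_gt (2 / δ)
  refine ⟨max N₀ k, fun q hq => ?_⟩
  have hq1 : N₀ ≤ q := (le_max_left _ _).trans hq
  have hq2 : k ≤ q := (le_max_right _ _).trans hq
  have h1 : q + 1 ≤ 2 ^ q := Nat.lt_two_pow_self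
  have h2 : 4 ^ q = 2 ^ q * 2 ^ q := by
    rw [four_pow_eq, two_mul, pow_add]
  have h3 : (q + 1) * (q + 1) ≤ 4 ^ q := by rw [h2]; exact Nat.mul_le_mul h1 h1
  have h4 : (q + 1) * (q + 1) + (q + 1) ≤ kap q := by
    unfold kap
    nlinarith
  set N := kap q - (q + 1) with hN
  have h5 : (q + 1) * (q + 1) ≤ N := by omega
  have h6 : N₀ ≤ N := by nlinarith
  have h7 := hF N h6
  have h8 : (2 * q : ℝ) < δ * N := by
    have e1 : (2 : ℝ) < δ * (q + 1) := by
      have : (k : ℝ) ≤ q := by exact_mod_cast hq2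
      rw [div_lt_iff₀ hδ] at hk
      nlinarith
    have e2 : ((q : ℝ) + 1) * (q + 1) ≤ N := by exact_mod_cast h5
    have e3 : δ * (((q : ℝ) + 1) * (q + 1)) ≤ δ * N := mul_le_mul_of_nonneg_left e2 hδ.le
    have e4 : (0 : ℝ) ≤ q := Nat.cast_nonneg q
    nlinarith
  have h9 : 2 * q < {n : ℕ | 1 ≤ n ∧ n ≤ N ∧ (T ^ n) z ∈ Metric.ball z 1}.ncard := by
    have := lt_of_lt_of_le h8 h7
    exact_mod_cast this
  by_contra hcon
  push Not at hcon
  have hsub : {n : ℕ | 1 ≤ n ∧ n ≤ N ∧ (T ^ n) z ∈ Metric.ball z 1} ⊆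
      (Finset.Icc 1 (2 * q) : Finset ℕ) := by
    rintro n ⟨a, b, c⟩
    rw [Finset.coe_Icc, Set.mem_Icc]
    refine ⟨a, ?_⟩
    by_contra hn
    push Not at hn
    have := hcon n hn (by omega)
    exact absurd (norm_le_of_ball c) (not_le.mpr this)
  have h10 := Set.ncard_le_ncard hsub (Finset.finite_toSet _)
  rw [Set.ncard_coe_finset, Nat.card_Icc] at h10
  omega

theorem iter_tau_inj (M : ℕ) : Function.Injective (tau^[M]) := by
  intro p q h
  rw [iter_tau, iter_tau] at h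
  have h1 := congrArg Prod.fst h
  have h2 := congrArg Prod.snd h
  simp only at h1 h2
  exact Prod.ext h1 (by omega)

theorem sum_quality {z : L1 Pt} {C : ℝ} {M q : ℕ} (hM1 : 2 * q < M) (hM2 : M + q + 1 ≤ kap q)
    (hC : ‖(T ^ M) z‖ ≤ C) (s : Finset Pt)
    (hs : ∀ e ∈ s, Atd e ∧ qu e = q ∧ po e < q) :
    ∑ e ∈ s, |z e / w e| ≤ C * (1 / 2) ^ q := by
  have h1 : ∀ e ∈ s, |z e / w e| ≤ (2 ^ q / 2 ^ M) * |((T ^ M) z) (tau^[M] e)| := by
    intro e he
    obtain ⟨hA, hq, hp⟩ := hs e he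
    have h2 := (sv_iter M hA (by rw [hq]; omega) z).1
    rw [h2, abs_mul, abs_div, abs_of_pos (w_pos e), w_atd hA, hq,
      abs_of_pos (show (0 : ℝ) < 2 ^ M by positivity)]
    have h3 : (1 : ℝ) ≤ 2 ^ po e := one_le_pow₀ (by norm_num)
    have h4 : 0 ≤ |z e| := abs_nonneg _
    have h5 : |z e| / (2 ^ po e / 2 ^ q) = (2 ^ q * |z e|) / 2 ^ po e := by
      field_simp
    have h6 : (2 : ℝ) ^ q / 2 ^ M * (2 ^ M * |z e|) = 2 ^ q * |z e| := by
      field_simp
    rw [h5, h6]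
    exact div_le_self (by positivity) h3
  calc ∑ e ∈ s, |z e / w e| ≤ ∑ e ∈ s, (2 ^ q / 2 ^ M) * |((T ^ M) z) (tau^[M] e)| :=
        Finset.sum_le_sum h1
    _ = (2 ^ q / 2 ^ M) * ∑ e ∈ s, |((T ^ M) z) (tau^[M] e)| := by rw [Finset.mul_sum]
    _ = (2 ^ q / 2 ^ M) * ∑ x ∈ s.image (tau^[M]), |((T ^ M) z) x| := by
        rw [Finset.sum_image (fun x _ y _ h => iter_tau_inj M h)]
    _ ≤ (2 ^ q / 2 ^ M) * C := by
        apply mul_le_mul_of_nonneg_left _ (by positivity)
        exact (sum_abs_le_norm _ _).trans hC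
    _ ≤ C * (1 / 2) ^ q := by
        have hC0 : 0 ≤ C := (norm_nonneg _).trans hC
        rw [mul_comm]
        apply mul_le_mul_of_nonneg_left _ hC0
        rw [one_div_pow, div_le_div_iff₀ (by positivity) (by positivity), ← pow_add, one_mul]
        exact pow_le_pow_right₀ (by norm_num) (by omega)

theorem sum_geom_le (s : Finset ℕ) : ∑ q ∈ s, ((1 : ℝ) / 2) ^ q ≤ 2 := by
  have h := hasSum_geometric_two
  exact sum_le_hasSum s (fun _ _ => by positivity) h

theorem HB_of_fr {z : L1 Pt} {δ : ℝ} {N₀ : ℕ} (h : Fr z δ N₀) : HB z := by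
  classical
  obtain ⟨q0, hq0⟩ := good_M h
  unfold HB
  apply summable_of_sum_le (c := 2 ^ q0 * ‖z‖ + (‖z‖ + 1) * 2) (fun e => abs_nonneg _)
  intro s
  rw [← Finset.sum_filter_add_sum_filter_not s (fun e => ¬ (Atd e ∧ q0 ≤ qu e ∧ po e < qu e))]
  apply add_le_add
  · calc ∑ e ∈ s.filter (fun e => ¬ (Atd e ∧ q0 ≤ qu e ∧ po e < qu e)), |z e / w e|
        ≤ ∑ e ∈ s.filter (fun e => ¬ (Atd e ∧ q0 ≤ qu e ∧ po e < qu e)), 2 ^ q0 * |z e| := by
          apply Finset.sum_le_sum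
          intro e he
          rw [Finset.mem_filter] at he
          have hw : 1 ≤ 2 ^ q0 * w e := by
            by_cases hA : Atd e
            · rw [w_atd hA, ← mul_div_assoc, one_le_div (by positivity), ← pow_add]
              apply pow_le_pow_right₀ (by norm_num)
              have := he.2
              by_contra hcon
              exact this ⟨hA, by omega, by omega⟩
            · have h1 := one_le_w_free hA
              have h2 : (1 : ℝ) ≤ 2 ^ q0 := one_le_pow₀ (by norm_num)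
              nlinarith
          rw [abs_div, abs_of_pos (w_pos e), div_le_iff₀ (w_pos e)]
          have := abs_nonneg (z e)
          nlinarith
      _ = 2 ^ q0 * ∑ e ∈ s.filter (fun e => ¬ (Atd e ∧ q0 ≤ qu e ∧ po e < qu e)), |z e| := by
          rw [Finset.mul_sum]
      _ ≤ 2 ^ q0 * ‖z‖ := mul_le_mul_of_nonneg_left (sum_abs_le_norm _ _) (by positivity)
  · simp only [not_not]
    set s2 := s.filter (fun e => Atd e ∧ q0 ≤ qu e ∧ po e < qu e) with hs2
    have hfib := Finset.sum_fiberwise_of_maps_to (s := s2) (t := s2.image qu) (g := qu)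
      (fun e he => Finset.mem_image_of_mem _ he) (fun e => |z e / w e|)
    rw [← hfib]
    calc ∑ q ∈ s2.image qu, ∑ e ∈ s2.filter (fun e => qu e = q), |z e / w e|
        ≤ ∑ q ∈ s2.image qu, (‖z‖ + 1) * (1 / 2) ^ q := by
          apply Finset.sum_le_sum
          intro q hq
          rw [Finset.mem_image] at hq
          obtain ⟨e0, he0, rfl⟩ := hq
          rw [hs2, Finset.mem_filter] at he0
          obtain ⟨M, hM1, hM2, hM3⟩ := hq0 (qu e0) he0.2.2.1
          apply sum_quality hM1 hM2 hM3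
          intro e he
          rw [Finset.mem_filter, hs2, Finset.mem_filter] at he
          refine ⟨he.1.2.1, he.2, ?_⟩
          rw [← he.2]; exact he.1.2.2.2
      _ = (‖z‖ + 1) * ∑ q ∈ s2.image qu, (1 / 2 : ℝ) ^ q := by rw [Finset.mul_sum]
      _ ≤ (‖z‖ + 1) * 2 := mul_le_mul_of_nonneg_left (sum_geom_le _) (by positivity)

/-! ### long free runs -/

theorem zn_bounds {m n : ℕ} (h1 : 4 ^ n ≤ m) (h2 : m < 4 ^ (n + 1)) : zn m = n :=
  Nat.log_eq_of_pow_le_of_lt_pow h1 h2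

theorem free_late {a : Lab} {n m : ℕ} (hk : kap (th a) ≤ 2 * 4 ^ n) (h1 : 2 * 4 ^ n ≤ m)
    (h2 : m < 4 ^ (n + 1)) : ¬ Atd (a, m) := by
  have hz : zn m = n := zn_bounds (by omega) h2
  rintro (hi | ha)
  · have : m < kap (th a) := hi.1
    omega
  · have h3 : m < 2 * 4 ^ zn m := ha.1.2.1
    rw [hz] at h3
    omega

theorem free_zone {a : Lab} {n m : ℕ} (hal : ¬ al a (n + 1)) (hk : kap (th a) ≤ 2 * 4 ^ n)
    (h1 : 2 * 4 ^ n ≤ m) (h2 : m < 4 ^ (n + 2)) : ¬ Atd (a, m) := by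
  rcases Nat.lt_or_ge m (4 ^ (n + 1)) with h | h
  · exact free_late hk h1 h
  · have hz : zn m = n + 1 := zn_bounds h h2
    rintro (hi | ha)
    · have : m < kap (th a) := hi.1
      omega
    · have h3 : al a (zn m) := ha.2.2
      rw [hz] at h3
      exact hal h3

theorem w_free_ge {a : Lab} {s l : ℕ} (hsl : s ≤ l) (h : ∀ m, s ≤ m → m ≤ l → ¬ Atd (a, m)) :
    (l : ℝ) + 1 ≤ w (a, l) + s := by
  rw [w_free (h l hsl le_rfl)]
  have := fr_ge hsl (fun m h1 h2 => h m h1 h2.le)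
  exact_mod_cast this

theorem kk_run {k i n' : ℕ} (h1 : 2 ^ (Nat.pair k i + 1) ≤ n')
    (h2 : n' < 2 ^ (Nat.pair k i + 2)) : KK (n' / 2) = k := by
  unfold KK
  have : Nat.log 2 (n' / 2) = Nat.pair k i := by
    apply Nat.log_eq_of_pow_le_of_lt_pow
    · rw [pow_succ] at h1; omega
    · rw [pow_succ] at h2; omega
  rw [this]
  simp

theorem run_lemma {b k l0 l1 i Y0 : ℕ} (hbk : b < k)
    (hY1 : kap b ≤ Y0) (hY2 : l0 ≤ Y0) (hY3 : l1 ≤ Y0)
    (hY4 : 4 * Y0 < 4 ^ (2 ^ (Nat.pair k i + 1))) {M : ℕ}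
    (h1 : 4 ^ (2 ^ (Nat.pair k i + 1)) ≤ M) (h2 : M + l0 + l1 < 4 ^ (2 ^ (Nat.pair k i + 2))) :
    (Y0 : ℝ) < w (Sum.inl b, l0 + M) ∨ (Y0 : ℝ) < w (Sum.inr k, l1 + M) := by
  have hpos : M + l0 ≠ 0 := by
    have : 0 < 4 ^ (2 ^ (Nat.pair k i + 1)) := by positivity
    omega
  obtain ⟨n', hn'⟩ : ∃ n', n' = Nat.log 4 (M + l0) := ⟨_, rfl⟩
  have hZ1 : 4 ^ n' ≤ M + l0 := by rw [hn']; exact Nat.pow_log_le_self 4 hpos
  have hZ2 : M + l0 < 4 ^ (n' + 1) := by
    rw [hn']; exact Nat.lt_pow_succ_log_self (by norm_num) _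
  have hn1 : 2 ^ (Nat.pair k i + 1) ≤ n' := by
    rw [hn']; exact (Nat.le_log_iff_pow_le (by norm_num) hpos).mpr (by omega)
  have hn2 : n' < 2 ^ (Nat.pair k i + 2) := by
    rw [hn']; exact (Nat.log_lt_iff_lt_pow (by norm_num) hpos).mpr (by omega)
  have hKK := kk_run hn1 hn2
  have hge : 4 ^ (2 ^ (Nat.pair k i + 1)) ≤ 4 ^ n' := Nat.pow_le_pow_right (by norm_num) hn1
  obtain ⟨n, rfl⟩ : ∃ n, n' = n + 1 := ⟨n' - 1, by
    have : 0 < 2 ^ (Nat.pair k i + 1) := by positivity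
    omega⟩
  -- `Y = 4 ^ n`
  have e1 : 4 ^ (n + 1) = 4 * 4 ^ n := by rw [pow_succ]; ring
  have e2 : 4 ^ (n + 2) = 16 * 4 ^ n := by rw [pow_succ, pow_succ]; ring
  have e2' : 4 ^ (n + 1 + 1) = 16 * 4 ^ n := by rw [pow_succ, pow_succ]; ring
  have hY : Y0 < 4 ^ n := by omega
  rcases Nat.mod_two_eq_zero_or_one (n + 1) with hpar | hpar
  · rcases Nat.lt_or_ge (M + l0) (3 * 4 ^ (n + 1)) with h3 | h3
    · -- `f_k` is free
      right
      have hal : ¬ al (Sum.inr k) (n + 1) := by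
        rintro (h | h)
        · omega
        · exact h hKK
      have hf := w_free_ge (a := Sum.inr k) (s := 2 * 4 ^ n) (l := l1 + M) (by omega)
        (fun m hm1 hm2 => free_zone hal (by
            have : kap (th (Sum.inr k)) = 2 := rfl
            rw [this]
            omega) hm1 (by omega))
      have h5 : 2 * 4 ^ n + Y0 < l1 + M + 1 := by omega
      have h6 : (2 * 4 ^ n : ℝ) + Y0 < l1 + M + 1 := by exact_mod_cast h5
      push_cast at hf
      linarith
    · -- `g_b` is free since the zone is almost over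
      left
      have hf := w_free_ge (a := Sum.inl b) (s := 2 * 4 ^ (n + 1)) (l := l0 + M) (by omega)
        (fun m hm1 hm2 => free_late (by
            have : kap (th (Sum.inl b)) = kap b := rfl
            rw [this]
            omega) hm1 (by omega))
      have h5 : 2 * 4 ^ (n + 1) + Y0 < l0 + M + 1 := by omega
      have h6 : (2 * 4 ^ (n + 1) : ℝ) + Y0 < l0 + M + 1 := by exact_mod_cast h5
      push_cast at hf
      linarith
  · -- `g_b` is free since the zone is forbidden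
    left
    have hal : ¬ al (Sum.inl b) (n + 1) := by
      rintro (h | h)
      · omega
      · rw [hKK] at h; omega
    have hf := w_free_ge (a := Sum.inl b) (s := 2 * 4 ^ n) (l := l0 + M) (by omega)
      (fun m hm1 hm2 => free_zone hal (by
          have : kap (th (Sum.inl b)) = kap b := rfl
          rw [this]
          omega) hm1 (by omega))
    have h5 : 2 * 4 ^ n + Y0 < l0 + M + 1 := by omega
    have h6 : (2 * 4 ^ n : ℝ) + Y0 < l0 + M + 1 := by exact_mod_cast h5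
    push_cast at hf
    linarith

theorem not_fr {z : L1 Pt} {δ : ℝ} {N₀ : ℕ} (h : Fr z δ N₀) {b k l0 l1 : ℕ} (hbk : b < k)
    (hv : bet z (HB_of_fr h) (Sum.inl b, l0) ≠ 0) (hu : bet z (HB_of_fr h) (Sum.inr k, l1) ≠ 0) :
    False := by
  obtain ⟨H1, M1, hM1⟩ := w_bounded (HB_of_fr h) (C := ‖z‖ + 1) hv
  obtain ⟨H2, M2, hM2⟩ := w_bounded (HB_of_fr h) (C := ‖z‖ + 1) hu
  obtain ⟨hδ, hF⟩ := h
  obtain ⟨y1, hy1⟩ := exists_nat_gt H1
  obtain ⟨y2, hy2⟩ := exists_nat_gt H2
  obtain ⟨y3, hy3⟩ := exists_nat_gt (2 / δ)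
  set Y0 := kap b + l0 + l1 + y1 + y2 + y3 + M1 + M2 + N₀ + 1 with hY0
  set i := 4 * Y0 + 4 with hi
  set n := Nat.pair k i with hn
  set A := 4 ^ (2 ^ (n + 1)) with hA
  have hin : i ≤ n := Nat.right_le_pair k i
  have hA1 : 4 * Y0 < A := by
    have a1 : n + 1 < 2 ^ (n + 1) := Nat.lt_two_pow_self
    have a2 : 2 ^ (n + 1) < 4 ^ (2 ^ (n + 1)) := Nat.lt_pow_self (by norm_num)
    omega
  have hA2 : 4 ^ (2 ^ (n + 2)) = A * A := by
    rw [hA, ← pow_add]; congr 1; rw [pow_succ 2 (n + 1)]; ring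
  set N := A * A - (l0 + l1 + 1) with hN
  have hAA : 2 * A ≤ A * A := Nat.mul_le_mul_right A (by omega)
  have hN0 : N₀ ≤ N := by omega
  have hsub : {m : ℕ | 1 ≤ m ∧ m ≤ N ∧ (T ^ m) z ∈ Metric.ball z 1} ⊆
      (Finset.Ico 1 A : Finset ℕ) := by
    rintro m ⟨a, b', c⟩
    rw [Finset.coe_Ico, Set.mem_Ico]
    refine ⟨a, ?_⟩
    by_contra hm
    push Not at hm
    have hc := norm_le_of_ball c
    have c1 := hM1 m (by omega) hc
    have c2 := hM2 m (by omega) hc
    rw [iter_tau] at c1 c2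
    have hrun := run_lemma (b := b) (k := k) (l0 := l0) (l1 := l1) (i := i) (Y0 := Y0) (M := m)
      hbk (by omega) (by omega) (by omega) hA1 hm (by rw [← hn, hA2]; omega)
    have d1 : (y1 : ℝ) ≤ Y0 := by exact_mod_cast (by omega : y1 ≤ Y0)
    have d2 : (y2 : ℝ) ≤ Y0 := by exact_mod_cast (by omega : y2 ≤ Y0)
    rcases hrun with hr | hr
    · linarith
    · linarith
  have h10 := Set.ncard_le_ncard hsub (Finset.finite_toSet _)
  rw [Set.ncard_coe_finset, Nat.card_Ico] at h10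
  have h11 := hF N hN0
  have h12 : δ * (N : ℝ) ≤ A := by
    refine h11.trans ?_
    exact_mod_cast (by omega :
      {m : ℕ | 1 ≤ m ∧ m ≤ N ∧ (T ^ m) z ∈ Metric.ball z 1}.ncard ≤ A)
  have h13 : A * A ≤ 2 * N := by
    have : 2 * (l0 + l1 + 1) ≤ A * A := by omega
    omega
  have h14 : (A : ℝ) * A ≤ 2 * N := by exact_mod_cast h13
  have h15 : (y3 : ℝ) ≤ A := by exact_mod_cast (by omega : y3 ≤ A)
  rw [div_lt_iff₀ hδ] at hy3
  have hApos : (0 : ℝ) < A := by positivity
  have h16 : 2 < A * δ := lt_of_lt_of_le hy3 (mul_le_mul_of_nonneg_right h15 hδ.le)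
  nlinarith

theorem no_dense_submodule (S : Submodule ℝ (L1 Pt)) (hS : Dense (S : Set (L1 Pt)))
    (hF : (S : Set (L1 Pt)) ⊆ {x | IsFRec x}) : False := by
  have hex : ∀ q : Pt, ∃ v ∈ S, v q ≠ 0 := by
    intro q
    have hopen : IsOpen {x : L1 Pt | x q ≠ 0} := by
      have : {x : L1 Pt | x q ≠ 0} = (ev q) ⁻¹' {0}ᶜ := by
        ext x; rfl
      rw [this]
      exact isOpen_compl_singleton.preimage (ev q).continuous
    obtain ⟨x, hx1, hx2⟩ := hS.exists_mem_open hopen ⟨ep q, by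
      change (ep q : L1 Pt) q ≠ 0
      rw [ep_self]; norm_num⟩
    exact ⟨x, hx1, hx2⟩
  obtain ⟨v, hvS, hv0⟩ := hex (Sum.inl 0, 0)
  obtain ⟨δv, Nv, hv⟩ := (hF hvS : IsFRec v).fr
  obtain ⟨⟨a, l0⟩, hind, hbv⟩ := exists_desc (HB_of_fr hv) hv0
  obtain ⟨b, rfl⟩ : ∃ b, a = Sum.inl b := by
    rcases a with b | k
    · exact ⟨b, rfl⟩
    · exfalso
      have := (ind_label hind k).mp rfl
      cases this
  obtain ⟨u, huS, hu0⟩ := hex (Sum.inr (b + 1), 0)
  obtain ⟨δu, Nu, hu⟩ := (hF huS : IsFRec u).fr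
  obtain ⟨⟨a', l1⟩, hind', hbu⟩ := exists_desc (HB_of_fr hu) hu0
  have ha' : a' = Sum.inr (b + 1) := (ind_label hind' (b + 1)).mpr rfl
  subst ha'
  set x1 := bet v (HB_of_fr hv) (Sum.inl b, l0) with hx1
  set x2 := bet u (HB_of_fr hu) (Sum.inl b, l0) with hx2
  set x3 := bet v (HB_of_fr hv) (Sum.inr (b + 1), l1) with hx3
  set x4 := bet u (HB_of_fr hu) (Sum.inr (b + 1), l1) with hx4
  obtain ⟨t, ht1, ht2⟩ : ∃ t : ℝ, x1 + t * x2 ≠ 0 ∧ x3 + t * x4 ≠ 0 := by
    by_contra hcon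
    push Not at hcon
    have key : ∀ t : ℝ, x1 + t * x2 = 0 ∨ x3 + t * x4 = 0 := by
      intro t
      by_cases h : x1 + t * x2 = 0
      · exact Or.inl h
      · exact Or.inr (hcon t h)
    have hA : ∀ s t : ℝ, s ≠ t → x1 + s * x2 = 0 → x1 + t * x2 = 0 → False := by
      intro s t hst h1 h2
      have h3 : (s - t) * x2 = 0 := by linarith
      rcases mul_eq_zero.mp h3 with h | h
      · exact hst (by linarith)
      · rw [h] at h1
        exact hbv (by linarith)
    have hB : ∀ s t : ℝ, s ≠ t → x3 + s * x4 = 0 → x3 + t * x4 = 0 → False := by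
      intro s t hst h1 h2
      have h3 : (s - t) * x4 = 0 := by linarith
      rcases mul_eq_zero.mp h3 with h | h
      · exact hst (by linarith)
      · exact hbu h
    rcases key 1 with h1 | h1 <;> rcases key 2 with h2 | h2 <;> rcases key 3 with h3 | h3
    · exact hA 1 2 (by norm_num) h1 h2
    · exact hA 1 2 (by norm_num) h1 h2
    · exact hA 1 3 (by norm_num) h1 h3
    · exact hB 2 3 (by norm_num) h2 h3
    · exact hA 2 3 (by norm_num) h2 h3
    · exact hB 1 3 (by norm_num) h1 h3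
    · exact hB 1 2 (by norm_num) h1 h2
    · exact hB 1 2 (by norm_num) h1 h2
  have hzS : v + t • u ∈ S := S.add_mem hvS (S.smul_mem t huS)
  obtain ⟨δz, Nz, hz⟩ := (hF hzS : IsFRec (v + t • u)).fr
  have hbz := bet_add_smul t (HB_of_fr hv) (HB_of_fr hu) (HB_of_fr hz)
  refine not_fr hz (b := b) (k := b + 1) (l0 := l0) (l1 := l1) (by omega) ?_ ?_
  · rw [hbz, lp.coeFn_add, Pi.add_apply, lp.coeFn_smul, Pi.smul_apply, smul_eq_mul]
    exact ht1
  · rw [hbz, lp.coeFn_add, Pi.add_apply, lp.coeFn_smul, Pi.smul_apply, smul_eq_mul]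
    exact ht2

end Pool.Agent.MP7b2682
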