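import Pool.Agent.Lib.MP_7b2682_an.Returns

set_option autoImplicit false

namespace Pool.Agent.FRecEx

/-- type of the code `c` -/
def ty (c : ℕ) : ℕ := (Nat.unpair c).1

/-- a return window of type `l` and code `c` starts at `m` -/
def Ret (l c m : ℕ) : Prop := 1 ≤ c ∧ ty c = l ∧ m ∈ L c

lemma Ret.lt {l c m : ℕ} (h : Ret l c m) : l < c := by
  rw [← h.2.1]; exact Nat.unpair_lt h.1

/-- node `(l,n)` is in a window of code `c`, with age `a` -/
def InWin (l n c a : ℕ) : Prop := a < W c ∧ a ≤ n ∧ ((a = n ∧ c = l) ∨ (a < n ∧ Ret l c (n - a)))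

namespace InWin

lemma code_ge {l n c a : ℕ} (h : InWin l n c a) : l ≤ c := by
  rcases h.2.2 with ⟨_, h2⟩ | ⟨_, h2⟩
  · omega
  · exact h2.lt.le

lemma ret {l n c a : ℕ} (h : InWin l n c a) (ha : a < n) : Ret l c (n - a) := by
  rcases h.2.2 with ⟨h1, _⟩ | ⟨_, h2⟩
  · omega
  · exact h2

lemma init {l n c a : ℕ} (h : InWin l n c a) (ha : ¬ a < n) : a = n ∧ c = l := by
  rcases h.2.2 with h1 | ⟨h1, _⟩
  · exact h1
  · exact absurd h1 ha

lemma unique {l n c a c' a' : ℕ} (h : InWin l n c a) (h' : InWin l n c' a') :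
    c = c' ∧ a = a' := by
  have key : ∀ {c₁ a₁ : ℕ}, InWin l n c₁ a₁ → a₁ < n → ¬ (n < W l) := by
    intro c₁ a₁ h₁ h₂ h₃
    have h4 := h₁.ret h₂
    have h5 := L_ge h4.2.2
    have h6 := q_strictMono.monotone h4.lt.le
    have h7 := W_add_le_q l
    omega
  by_cases ha : a < n
  · by_cases ha' : a' < n
    · by_cases hcm : c = c' ∧ n - a = n - a'
      · exact ⟨hcm.1, by omega⟩
      · exfalso
        have h1 := sep (h.ret ha).2.2 (h'.ret ha').2.2 hcm
        have h2 := W_mono (le_max_left c c')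
        have h3 := W_mono (le_max_right c c')
        have h4 := h.1
        have h5 := h'.1
        omega
    · obtain ⟨h1, h2⟩ := h'.init ha'
      subst h1 h2
      exact absurd h'.1 (key h ha)
  · obtain ⟨h1, h2⟩ := h.init ha
    by_cases ha' : a' < n
    · subst h1 h2
      exact absurd h.1 (key h' ha')
    · obtain ⟨h3, h4⟩ := h'.init ha'
      omega

lemma shift {l n c a : ℕ} (h : InWin l n c a) {t : ℕ} (ht : a + t < W c) :
    InWin l (n + t) c (a + t) := by
  obtain ⟨h1, h2, h3⟩ := h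
  refine ⟨ht, by omega, ?_⟩
  rcases h3 with ⟨h4, h5⟩ | ⟨h4, h5⟩
  · left; exact ⟨by omega, h5⟩
  · right
    refine ⟨by omega, ?_⟩
    have : n + t - (a + t) = n - a := by omega
    rw [this]; exact h5

lemma unshift {l n c a t : ℕ} (h : InWin l (n + t) c (a + t)) : InWin l n c a := by
  obtain ⟨h1, h2, h3⟩ := h
  refine ⟨by omega, by omega, ?_⟩
  rcases h3 with ⟨h4, h5⟩ | ⟨h4, h5⟩
  · left; exact ⟨by omega, h5⟩
  · right
    refine ⟨by omega, ?_⟩
    have : n + t - (a + t) = n - a := by omega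
    rw [this] at h5; exact h5

lemma code_lt {l n c₁ a c : ℕ} (h : InWin l n c₁ a) (hl : l < c) (hn : n < q c) : c₁ < c := by
  by_cases ha : a < n
  · have h1 := L_ge (h.ret ha).2.2
    by_contra hcon
    push Not at hcon
    have := q_strictMono.monotone hcon
    omega
  · have := (h.init ha).2
    omega

end InWin

lemma inWin_init {l n : ℕ} (h : n < W l) : InWin l n l n := ⟨h, le_rfl, Or.inl ⟨rfl, rfl⟩⟩

lemma inWin_ret {l c m : ℕ} (h : Ret l c m) : InWin l m c 0 := by
  have h1 := L_pos h.2.2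
  have h2 := s_lt_W c
  refine ⟨by omega, by omega, Or.inr ⟨by omega, ?_⟩⟩
  simpa using h

/-- the node is in some window -/
def Win (l n : ℕ) : Prop := ∃ p : ℕ × ℕ, InWin l n p.1 p.2

open Classical in
/-- code of a node (its type if the node is free) -/
noncomputable def cd (l n : ℕ) : ℕ := if h : Win l n then h.choose.1 else l

open Classical in
/-- age of a node -/
noncomputable def ag (l n : ℕ) : ℕ := if h : Win l n then h.choose.2 else 0

lemma InWin.win {l n c a : ℕ} (h : InWin l n c a) : Win l n := ⟨(c, a), h⟩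

lemma InWin.cd_eq {l n c a : ℕ} (h : InWin l n c a) : cd l n = c := by
  have hw := h.win
  unfold cd
  rw [dif_pos hw]
  exact (hw.choose_spec.unique h).1

lemma InWin.ag_eq {l n c a : ℕ} (h : InWin l n c a) : ag l n = a := by
  have hw := h.win
  unfold ag
  rw [dif_pos hw]
  exact (hw.choose_spec.unique h).2

lemma cd_free {l n : ℕ} (h : ¬ Win l n) : cd l n = l := by
  unfold cd; rw [dif_neg h]

lemma le_cd (l n : ℕ) : l ≤ cd l n := by
  by_cases h : Win l n
  · obtain ⟨⟨c, a⟩, h⟩ := h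
    rw [InWin.cd_eq h]; exact h.code_ge
  · rw [cd_free h]

lemma cd_lt {l n c : ℕ} (hl : l < c) (hn : n < q c) : cd l n < c := by
  by_cases h : Win l n
  · obtain ⟨⟨c', a⟩, h⟩ := h
    rw [InWin.cd_eq h]; exact h.code_lt hl hn
  · rw [cd_free h]; exact hl

/-- link nodes -/
def Link (l n : ℕ) : Prop := ∃ c a, InWin l n c a ∧ a < s c

lemma Link.win {l n : ℕ} (h : Link l n) : Win l n := by
  obtain ⟨c, a, h, _⟩ := h; exact h.win

/-- maximal weight of code c -/
noncomputable def D (c : ℕ) : ℝ := 2 ^ (d c)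

open Classical in
/-- weights -/
noncomputable def wt (ν : ℕ × ℕ) : ℝ :=
  if Win ν.1 ν.2 then 2 ^ (min (ag ν.1 ν.2) (s (cd ν.1 ν.2))) / 2 ^ (cd ν.1 ν.2) else D ν.1

lemma wt_inWin {l n c a : ℕ} (h : InWin l n c a) : wt (l, n) = 2 ^ (min a (s c)) / 2 ^ c := by
  unfold wt
  simp only
  rw [if_pos h.win, h.ag_eq, h.cd_eq]

lemma wt_link {l n c a : ℕ} (h : InWin l n c a) (ha : a < s c) : wt (l, n) = 2 ^ a / 2 ^ c := by
  rw [wt_inWin h, min_eq_left ha.le]

lemma wt_top {l n c a : ℕ} (h : InWin l n c a) (ha : s c ≤ a) : wt (l, n) = D c := by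
  rw [wt_inWin h, min_eq_right ha, D]
  have : s c = c + d c := s_eq c
  rw [this, pow_add]
  field_simp

lemma wt_free {l n : ℕ} (h : ¬ Win l n) : wt (l, n) = D l := by
  unfold wt; simp only; rw [if_neg h]

lemma wt_pos (ν : ℕ × ℕ) : 0 < wt ν := by
  unfold wt D
  split_ifs <;> positivity

lemma D_pos (c : ℕ) : 0 < D c := by unfold D; positivity

lemma one_le_D (c : ℕ) : 1 ≤ D c := by
  unfold D; exact one_le_pow₀ (by norm_num)

lemma D_mono : Monotone D := by
  intro a b h
  unfold D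
  exact pow_le_pow_right₀ (by norm_num) (d_strictMono.monotone h)

lemma wt_le (l n : ℕ) : wt (l, n) ≤ D (cd l n) := by
  by_cases h : Win l n
  · obtain ⟨⟨c, a⟩, h⟩ := h
    simp only at h
    rw [wt_inWin h, h.cd_eq, D]
    rw [div_le_iff₀ (by positivity), ← pow_add]
    apply pow_le_pow_right₀ (by norm_num)
    have := s_eq c
    have := min_le_right a (s c)
    omega
  · rw [wt_free h, cd_free h]

lemma wt_nonlink {l n : ℕ} (h : ¬ Link l n) : wt (l, n) = D (cd l n) := by
  by_cases hw : Win l n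
  · obtain ⟨⟨c, a⟩, hw⟩ := hw
    simp only at hw
    have ha : s c ≤ a := by
      by_contra hcon
      push Not at hcon
      exact h ⟨c, a, hw, hcon⟩
    rw [wt_top hw ha, hw.cd_eq]
  · rw [wt_free hw, cd_free hw]

/-- error bound -/
noncomputable def E (c : ℕ) : ℝ := 2 * c * D (c - 1)

lemma E_nonneg (c : ℕ) : 0 ≤ E c := by
  unfold E; have := D_pos (c - 1); positivity

lemma D_succ (c : ℕ) : D (c + 1) = D c ^ 4 := by
  unfold D; rw [d_succ, ← pow_mul]; ring_nf

lemma D_large (c : ℕ) : 8 * (c + 1) ≤ D c := by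
  have h1 : c < 4 ^ c := Nat.lt_pow_self (by norm_num)
  have h2 : d c < 2 ^ (d c) := Nat.lt_pow_self (by norm_num)
  have h3 : d c = 10 * 4 ^ c := d_eq c
  unfold D
  have : 8 * (c + 1) ≤ 2 ^ (d c) := by omega
  exact_mod_cast this

lemma E_le (c : ℕ) : 4 * E c ≤ D c := by
  rcases c with _ | c
  · unfold E; simp; exact (D_pos 0).le
  · unfold E
    rw [D_succ]
    simp only [Nat.add_sub_cancel]
    have h1 := D_large c
    have h2 := one_le_D c
    push_cast
    have h3 : (0:ℝ) ≤ c := Nat.cast_nonneg c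
    have h4 : 4 * (2 * ((c:ℝ) + 1) * D c) ≤ D c * D c := by nlinarith
    have h5 : D c * D c ≤ D c ^ 4 := by
      have : D c ^ 2 ≤ D c ^ 4 := pow_le_pow_right₀ h2 (by norm_num)
      nlinarith
    linarith

lemma E_lt_of {c c' : ℕ} (h : c < c') : D c + E c ≤ 2 * D (c' - 1) := by
  have h1 := E_le c
  have h2 : D c ≤ D (c' - 1) := D_mono (by omega)
  have h3 := E_nonneg c
  linarith

lemma E_mono : Monotone E := by
  intro a b h
  unfold E
  have h1 : D (a - 1) ≤ D (b - 1) := D_mono (by omega)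
  have h2 : (a : ℝ) ≤ b := by exact_mod_cast h
  have h3 := D_pos (a - 1)
  have h4 : (0:ℝ) ≤ a := Nat.cast_nonneg a
  nlinarith

end Pool.Agent.FRecEx
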