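import Pool.Agent.Lib.MP_7b2682_an.L1
import Pool.Agent.Lib.MP_7b2682_an.Comb

/-!
The operator used in the solution of MP_7b2682_an.
-/

set_option autoImplicit false

namespace Pool.Agent.MP7b2682

open Classical in
/-- weights -/
noncomputable def w (p : Pt) : ℝ := if Atd p then 2 ^ po p / 2 ^ qu p else (fr p.1 p.2 : ℝ)

theorem w_atd {p : Pt} (h : Atd p) : w p = 2 ^ po p / 2 ^ qu p := by simp [w, h]
theorem w_free {p : Pt} (h : ¬ Atd p) : w p = (fr p.1 p.2 : ℝ) := by simp [w, h]

theorem one_le_w_free {p : Pt} (h : ¬ Atd p) : 1 ≤ w p := by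
  rw [w_free h]; exact_mod_cast fr_pos p.1 p.2

theorem w_pos (p : Pt) : 0 < w p := by
  by_cases h : Atd p
  · rw [w_atd h]; positivity
  · exact lt_of_lt_of_le one_pos (one_le_w_free h)

/-- parent point of an attached point -/
noncomputable def pp (p : Pt) : Pt := (pl p, po p)

/-- rank -/
def rk (p : Pt) : ℕ := p.2 + th p.1

theorem rk_pp {p : Pt} (h : Atd p) : rk (pp p) < rk p := rank_lt h

open Classical in
/-- the vectors `δ_p` -/
noncomputable def dl (p : Pt) : L1 Pt :=
  w p • ep p + if _h : Atd p then dl (pp p) else 0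
termination_by rk p
decreasing_by exact rk_pp _h

theorem dl_atd {p : Pt} (h : Atd p) : dl p = w p • ep p + dl (pp p) := by
  rw [dl]; simp [h]

theorem dl_free {p : Pt} (h : ¬ Atd p) : dl p = w p • ep p := by
  rw [dl]; simp [h]

theorem norm_dl_free {p : Pt} (h : ¬ Atd p) : ‖dl p‖ = (fr p.1 p.2 : ℝ) := by
  rw [dl_free h, norm_smul, norm_ep, mul_one, w_free h]
  simp

theorem not_win_zero : ¬ Win 0 := fun h => Nat.not_lt_zero _ h.1

theorem not_att_zero (a : Lab) : ¬ Att (a, 0) := fun h => not_win_zero h.1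

theorem norm_dl_zero' (n : ℕ) : ∀ a : Lab, th a = n → ‖dl (a, 0)‖ ≤ 2 - (1 / 2) ^ n := by
  induction n using Nat.strong_induction_on with
  | _ n ih =>
    intro a ha
    by_cases h0 : th a = 0
    · have hf : ¬ Atd (a, 0) := by
        rintro (h | h)
        · exact h.2 h0
        · exact not_att_zero a h
      have h1 : fr a 0 = 1 := by simp [fr]
      rw [norm_dl_free hf]
      change ((fr a 0 : ℕ) : ℝ) ≤ _
      rw [h1, ← ha, h0]
      norm_num
    · have hi : Ini (a, 0) := ⟨kap_pos _, h0⟩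
      have hA : Atd (a, 0) := Or.inl hi
      have hp := th_parL h0
      have h2 := ih (th (parL a)) (by omega) (parL a) rfl
      have h3 : pp (a, 0) = (parL a, 0) := by
        unfold pp
        rw [pl_ini hi, po_ini hi]
      have h4 : w (a, 0) = (1 / 2) ^ n := by
        rw [w_atd hA, po_ini hi, qu_ini hi]
        change (2 : ℝ) ^ 0 / 2 ^ th a = _
        rw [ha]; simp
      rw [dl_atd hA, h3]
      calc ‖w (a, 0) • ep (a, 0) + dl (parL a, 0)‖
          ≤ ‖w (a, 0) • (ep (a, 0) : L1 Pt)‖ + ‖dl (parL a, 0)‖ := norm_add_le _ _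
        _ ≤ (1 / 2) ^ n + (2 - (1 / 2) ^ th (parL a)) := by
            apply add_le_add _ h2
            rw [norm_smul, norm_ep, mul_one, h4, Real.norm_eq_abs, abs_of_pos (by positivity)]
        _ ≤ 2 - (1 / 2) ^ n := by
            obtain ⟨k, hk⟩ : ∃ k, n = th (parL a) + 1 + k := ⟨n - (th (parL a) + 1), by omega⟩
            have h5 : ((1 : ℝ) / 2) ^ n ≤ (1 / 2) ^ (th (parL a) + 1) :=
              pow_le_pow_of_le_one (by norm_num) (by norm_num) (by omega)
            rw [pow_succ] at h5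
            linarith

theorem norm_dl_zero (a : Lab) : ‖dl (a, 0)‖ ≤ 2 := by
  have h := norm_dl_zero' (th a) a rfl
  have : (0 : ℝ) < (1 / 2) ^ th a := by positivity
  linarith

theorem dl_zero_apply' (n : ℕ) : ∀ a : Lab, th a = n → ∀ q : Pt, q.2 ≠ 0 → dl (a, 0) q = 0 := by
  induction n using Nat.strong_induction_on with
  | _ n ih =>
    intro a ha q hq
    have hne : q ≠ (a, 0) := by rintro rfl; exact hq rfl
    by_cases h0 : th a = 0
    · have hf : ¬ Atd (a, 0) := by
        rintro (h | h)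
        · exact h.2 h0
        · exact not_att_zero a h
      rw [dl_free hf, lp.coeFn_smul, Pi.smul_apply, ep_ne hne, smul_zero]
    · have hi : Ini (a, 0) := ⟨kap_pos _, h0⟩
      have hp := th_parL h0
      have h3 : pp (a, 0) = (parL a, 0) := by
        unfold pp
        rw [pl_ini hi, po_ini hi]
      rw [dl_atd (Or.inl hi), h3, lp.coeFn_add, Pi.add_apply, lp.coeFn_smul, Pi.smul_apply,
        ep_ne hne, smul_zero, zero_add]
      exact ih (th (parL a)) (by omega) (parL a) rfl q hq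

theorem dl_zero_apply (a : Lab) {q : Pt} (hq : q.2 ≠ 0) : dl (a, 0) q = 0 :=
  dl_zero_apply' (th a) a rfl q hq

/-- decomposition of a window start (or a free point) following a non-survivor -/
theorem dl_start {p : Pt} (h : Atd (tau p)) (hs : ¬ Sv p) :
    dl (tau p) = w (tau p) • ep (tau p) + dl (p.1, 0) := by
  obtain ⟨h1, h2, h3⟩ := start_of_tau h hs
  rw [dl_atd h]
  unfold pp
  rw [h2, h3]

theorem norm_dl_start {p : Pt} (h : Atd (tau p)) (hs : ¬ Sv p) : ‖dl (tau p)‖ ≤ 3 := by
  obtain ⟨h1, h2, h3⟩ := start_of_tau h hs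
  rw [dl_start h hs]
  have hw : w (tau p) ≤ 1 := by
    rw [w_atd h, h2, pow_zero]
    have : (1 : ℝ) ≤ 2 ^ qu (tau p) := one_le_pow₀ (by norm_num)
    exact div_le_one_of_le₀ this (by positivity)
  calc ‖w (tau p) • ep (tau p) + dl (p.1, 0)‖
      ≤ ‖w (tau p) • (ep (tau p) : L1 Pt)‖ + ‖dl (p.1, 0)‖ := norm_add_le _ _
    _ ≤ 1 + 2 := by
        apply add_le_add _ (norm_dl_zero _)
        rw [norm_smul, norm_ep, mul_one, Real.norm_eq_abs, abs_of_pos (w_pos _)]
        exact hw
    _ = 3 := by norm_num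

open Classical in
/-- numerator of the column of `T` -/
noncomputable def num (p : Pt) : L1 Pt := dl (tau p) - if Atd p then dl (tau (pp p)) else 0

/-- columns of `T` -/
noncomputable def col (p : Pt) : L1 Pt := (w p)⁻¹ • num p

theorem num_atd {p : Pt} (h : Atd p) : num p = dl (tau p) - dl (tau (pp p)) := by
  simp [num, h]

theorem num_free {p : Pt} (h : ¬ Atd p) : num p = dl (tau p) := by
  simp [num, h]

theorem w_tau_sv {p : Pt} (h : Sv p) : w (tau p) = 2 * w p := by
  obtain ⟨h1, h2, h3, h4⟩ := sv_tau h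
  rw [w_atd h1, w_atd h.1, h2, h3, pow_succ]
  ring

theorem pp_tau_sv {p : Pt} (h : Sv p) : pp (tau p) = tau (pp p) := by
  obtain ⟨h1, h2, h3, h4⟩ := sv_tau h
  unfold pp tau
  unfold tau at h3 h4
  rw [h3, h4]

theorem col_sv {p : Pt} (h : Sv p) : col p = (2 : ℝ) • ep (tau p) := by
  unfold col
  have hw := w_pos p
  rw [num_atd h.1, dl_atd (sv_tau h).1, pp_tau_sv h, add_sub_cancel_right, w_tau_sv h, smul_smul]
  congr 1
  field_simp

theorem pp_cut {p : Pt} (h : Atd p) (hs : ¬ Sv p) : tau (pp p) = (pl p, kap (qu p)) := by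
  have h1 := po_lt h
  have h2 : ¬ po p + 1 < kap (qu p) := fun h3 => hs ⟨h, h3⟩
  unfold pp tau
  have : po p + 1 = kap (qu p) := by omega
  simp only [this]

theorem not_atd_cut {p : Pt} (h : Atd p) (hs : ¬ Sv p) : ¬ Atd (tau (pp p)) := by
  rw [pp_cut h hs]
  exact not_atd_kap (th_pl_le h)

theorem arith1 (q : ℕ) : (kap q + 4) * 2 ^ q ≤ 2 * 2 ^ kap q := by
  unfold kap
  have h1 : 2 ^ q ≤ 4 ^ q := Nat.pow_le_pow_left (by norm_num) q
  have h2 : 4 ^ q + 1 ≤ 2 ^ (4 ^ q) := Nat.lt_two_pow_self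
  have h3 : 2 ^ (2 * 4 ^ q) = 2 ^ (4 ^ q) * 2 ^ (4 ^ q) := by rw [two_mul, pow_add]
  rw [h3]
  have h0 : 1 ≤ 4 ^ q := Nat.one_le_pow _ _ (by norm_num)
  generalize 4 ^ q = x at *
  generalize 2 ^ x = y at *
  generalize 2 ^ q = z at *
  nlinarith [Nat.mul_le_mul h2 h2, Nat.mul_le_mul_left (2 * x + 4) h1]

theorem norm_num_cut {p : Pt} (h : Atd p) (hs : ¬ Sv p) : ‖num p‖ ≤ kap (qu p) + 4 := by
  rw [num_atd h]
  have h1 : ‖dl (tau p)‖ ≤ 3 := by
    by_cases ht : Atd (tau p)
    · exact norm_dl_start ht hs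
    · rw [norm_dl_free ht, tau_fst, tau_snd, fr_succ_of_atd h]
      norm_num
  have h2 : ‖dl (tau (pp p))‖ ≤ kap (qu p) + 1 := by
    rw [norm_dl_free (not_atd_cut h hs), pp_cut h hs]
    exact_mod_cast fr_le _ _
  calc ‖dl (tau p) - dl (tau (pp p))‖ ≤ ‖dl (tau p)‖ + ‖dl (tau (pp p))‖ := norm_sub_le _ _
    _ ≤ 3 + (kap (qu p) + 1) := add_le_add h1 h2
    _ = kap (qu p) + 4 := by ring

theorem norm_col (p : Pt) : ‖col p‖ ≤ 4 := by
  by_cases hs : Sv p
  · rw [col_sv hs, norm_smul, norm_ep]; norm_num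
  · unfold col
    have hw := w_pos p
    rw [norm_smul, norm_inv, Real.norm_eq_abs, abs_of_pos hw, inv_mul_le_iff₀ hw]
    by_cases h : Atd p
    · refine (norm_num_cut h hs).trans ?_
      have h1 := po_lt h
      have h2 : ¬ po p + 1 < kap (qu p) := fun h3 => hs ⟨h, h3⟩
      have h3 : kap (qu p) = po p + 1 := by omega
      have h4 := arith1 (qu p)
      have h5 : ((kap (qu p) : ℝ) + 4) * 2 ^ qu p ≤ 2 * 2 ^ kap (qu p) := by exact_mod_cast h4
      rw [w_atd h]
      have h6 : (2 : ℝ) ^ kap (qu p) = 2 * 2 ^ po p := by rw [h3, pow_succ]; ring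
      rw [h6] at h5
      rw [div_mul_eq_mul_div, le_div_iff₀ (by positivity)]
      linarith
    · rw [num_free h]
      have h1 := one_le_w_free h
      by_cases ht : Atd (tau p)
      · have := norm_dl_start ht hs
        linarith
      · rw [norm_dl_free ht, tau_fst, tau_snd, fr_succ_of_free h]
        rw [w_free h] at h1 ⊢
        push_cast
        linarith

/-- the operator -/
noncomputable def T : L1 Pt →L[ℝ] L1 Pt := opc col 4 norm_col

theorem T_ep (p : Pt) : T (ep p) = col p := opc_ep _ _ _ _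

theorem T_w_ep (p : Pt) : T (w p • ep p) = num p := by
  rw [map_smul, T_ep]
  unfold col
  rw [smul_smul, mul_inv_cancel₀ (w_pos p).ne', one_smul]

theorem T_dl' (n : ℕ) : ∀ p : Pt, rk p = n → T (dl p) = dl (tau p) := by
  induction n using Nat.strong_induction_on with
  | _ n ih =>
    intro p hp
    by_cases h : Atd p
    · have h1 := rk_pp h
      rw [dl_atd h, map_add, T_w_ep, num_atd h, ih (rk (pp p)) (by omega) (pp p) rfl]
      abel
    · rw [dl_free h, T_w_ep, num_free h]

theorem T_dl (p : Pt) : T (dl p) = dl (tau p) := T_dl' (rk p) p rfl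

theorem T_pow_dl (n : ℕ) (a : Lab) (l : ℕ) : (T ^ n) (dl (a, l)) = dl (a, l + n) := by
  induction n with
  | zero => simp
  | succ n ih =>
    rw [pow_succ', mul_apply_eq_comp, ih, T_dl]
    rfl

/-! ### survivors double -/

theorem col_apply_tau {e : Pt} (he : Sv e) (p : Pt) :
    col p (tau e) = if p = e then 2 else 0 := by
  by_cases hs : Sv p
  · rw [col_sv hs, lp.coeFn_smul, Pi.smul_apply, ep_apply, smul_eq_mul]
    by_cases hpe : p = e
    · subst hpe; simp
    · have : tau e ≠ tau p := fun h => hpe (tau_inj h).symm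
      simp [this, hpe]
  · have hpe : p ≠ e := by rintro rfl; exact hs he
    rw [if_neg hpe]
    have hne : tau e ≠ tau p := fun h => hpe (tau_inj h).symm
    have h1 : dl (tau p) (tau e) = 0 := by
      by_cases ht : Atd (tau p)
      · rw [dl_start ht hs, lp.coeFn_add, Pi.add_apply, lp.coeFn_smul, Pi.smul_apply, ep_ne hne,
          smul_zero, zero_add]
        apply dl_zero_apply
        rw [tau_snd]; omega
      · rw [dl_free ht, lp.coeFn_smul, Pi.smul_apply, ep_ne hne, smul_zero]
    have h2 : (num p) (tau e) = 0 := by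
      by_cases h : Atd p
      · rw [num_atd h, lp.coeFn_sub, Pi.sub_apply, h1, zero_sub, neg_eq_zero]
        have hf := not_atd_cut h hs
        have hne2 : tau e ≠ tau (pp p) := by
          intro h3
          rw [← h3] at hf
          exact hf (sv_tau he).1
        rw [dl_free hf, lp.coeFn_smul, Pi.smul_apply, ep_ne hne2, smul_zero]
      · rw [num_free h, h1]
    unfold col
    rw [lp.coeFn_smul, Pi.smul_apply, h2, smul_zero]

theorem T_apply_tau {e : Pt} (he : Sv e) (y : L1 Pt) : (T y) (tau e) = 2 * y e := by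
  have h : (ev (tau e)).comp T = (2 : ℝ) • ev e := by
    apply clm_ext
    intro p
    rw [ContinuousLinearMap.comp_apply, T_ep, ev_apply, smul_apply, ev_apply,
      col_apply_tau he, ep_apply, smul_eq_mul]
    by_cases hpe : p = e
    · subst hpe; simp
    · have : e ≠ p := fun h => hpe h.symm
      simp [hpe, this]
  have h2 := congrArg (fun S : L1 Pt →L[ℝ] ℝ => S y) h
  exact h2

theorem iter_tau (n : ℕ) (p : Pt) : tau^[n] p = (p.1, p.2 + n) := by
  induction n with
  | zero => rfl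
  | succ n ih => rw [Function.iterate_succ_apply', ih]; rfl

theorem sv_iter (M : ℕ) : ∀ {e : Pt}, Atd e → po e + M < kap (qu e) →
    ∀ y : L1 Pt, ((T ^ M) y) (tau^[M] e) = 2 ^ M * y e ∧ Atd (tau^[M] e) ∧
      qu (tau^[M] e) = qu e ∧ po (tau^[M] e) = po e + M := by
  induction M with
  | zero => intro e he h y; simp [he]
  | succ M ih =>
    intro e he h y
    obtain ⟨h1, h2, h3, h4⟩ := ih he (by omega) y
    have hs : Sv (tau^[M] e) := ⟨h2, by rw [h3, h4]; omega⟩
    obtain ⟨a, b, c, d⟩ := sv_tau hs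
    rw [Function.iterate_succ_apply']
    refine ⟨?_, a, by rw [b, h3], by rw [c, h4]; ring⟩
    rw [pow_succ', mul_apply_eq_comp, T_apply_tau hs, h1, pow_succ']
    ring

end Pool.Agent.MP7b2682
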