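import Pool.Agent.Lib.MP_7b2682_an.Estimates
import Pool.Agent.Lib.MP_7b2682_an.L1

set_option autoImplicit false

namespace Pool.Agent.FRecEx

/-- embedding of finite combinations, with weights -/
noncomputable def emb : (ℕ × ℕ →₀ ℝ) →ₗ[ℝ] X :=
  Finsupp.linearCombination ℝ (fun μ => wt μ • e μ)

lemma emb_single (μ : ℕ × ℕ) (r : ℝ) : emb (Finsupp.single μ r) = r • (wt μ • e μ) := by
  unfold emb; rw [Finsupp.linearCombination_single]

lemma emb_sum (η : ℕ × ℕ →₀ ℝ) : emb η = η.sum fun μ r => r • (wt μ • e μ) := by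
  unfold emb; rw [Finsupp.linearCombination_apply]

lemma norm_emb_le (η : ℕ × ℕ →₀ ℝ) : ‖emb η‖ ≤ nrm rho η := by
  rw [emb_sum, Finsupp.sum, nrm_eq_sum (Finset.Subset.refl _)]
  refine (norm_sum_le _ _).trans (Finset.sum_le_sum fun μ _ => ?_)
  rw [norm_smul, norm_smul, norm_e, mul_one, Real.norm_eq_abs, Real.norm_eq_abs,
    abs_of_pos (wt_pos μ)]
  exact mul_le_mul_of_nonneg_left (le_max_left _ _) (abs_nonneg _)

lemma map_emb {F : Type*} [AddCommGroup F] [Module ℝ F] (Φ : X →ₗ[ℝ] F) (η : ℕ × ℕ →₀ ℝ) :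
    Φ (emb η) = η.sum fun μ r => r • (wt μ • Φ (e μ)) := by
  rw [emb_sum, Finsupp.sum, map_sum, Finsupp.sum]
  simp only [map_smul]

lemma emb_apply (η : ℕ × ℕ →₀ ℝ) (μ : ℕ × ℕ) : emb η μ = η μ * wt μ := by
  classical
  have h := map_emb (ev μ).toLinearMap η
  have h1 : (ev μ).toLinearMap (emb η) = emb η μ := rfl
  rw [h1] at h
  rw [h, Finsupp.sum_eq_single μ]
  · have : (ev μ).toLinearMap (e μ) = 1 := by
      change e μ μ = 1
      rw [e_apply, if_pos rfl]
    rw [this]; simp
  · intro ν _ hν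
    have : (ev μ).toLinearMap (e ν) = 0 := by
      change e ν μ = 0
      rw [e_apply, if_neg (Ne.symm hν)]
    rw [this]; simp
  · intro _; simp

lemma map_sh {E F : Type*} [AddCommMonoid E] [Module ℝ E] [AddCommMonoid F] [Module ℝ F]
    (Φ : E →ₗ[ℝ] F) (A : ℕ × ℕ → E) (t : ℕ) (η : ℕ × ℕ →₀ ℝ) :
    Φ (sh A t η) = sh (fun ν => Φ (A ν)) t η := by
  rw [sh_apply, sh_apply, Finsupp.sum, map_sum, Finsupp.sum]
  simp only [map_smul]

/-- the orbit vectors -/
noncomputable def U (ν : ℕ × ℕ) : X := emb (al ν)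

lemma U_eq (l n : ℕ) : U (l, n) = wt (l, n) • e (l, n) + sh U 0 (pr l n) := by
  unfold U
  rw [al_eq, map_add, emb_single, one_smul, map_sh]

lemma U_nonlink {l n : ℕ} (h : ¬ Link l n) : U (l, n) = wt (l, n) • e (l, n) := by
  rw [U_eq, pr_nonlink h]; simp

lemma emb_sh (t : ℕ) (η : ℕ × ℕ →₀ ℝ) : emb (sh al t η) = sh U t η := map_sh emb al t η

lemma norm_sh_U_le {l n c a t : ℕ} (h : InWin l n c a) (ha : a < s c) (ht : a + t < W c) :
    ‖sh U t (pr l n)‖ ≤ E c := by
  rw [← emb_sh]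
  exact (norm_emb_le _).trans (sh_nrm_le h ha ht)

/-- images of the unit vectors -/
noncomputable def Te (ν : ℕ × ℕ) : X :=
  (wt ν)⁻¹ • (U (ν.1, ν.2 + 1) - sh U 1 (pr ν.1 ν.2))

lemma Te_bound (ν : ℕ × ℕ) : ‖Te ν‖ ≤ 3 := by
  obtain ⟨l, n⟩ := ν
  unfold Te
  simp only
  have hw := wt_pos (l, n)
  rw [norm_smul, norm_inv, Real.norm_eq_abs, abs_of_pos hw, inv_mul_le_iff₀ hw]
  by_cases hl : Link l n
  · obtain ⟨c, a, h, ha⟩ := hl
    have hsW := s_lt_W c
    by_cases ha1 : a + 1 < s c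
    · rw [← sh_pr_shift U h ha1, U_eq, add_sub_cancel_right, norm_smul, norm_e, mul_one,
        Real.norm_eq_abs, abs_of_pos (wt_pos _), wt_link (h.shift (by omega)) ha1, wt_link h ha,
        pow_succ]
      have : (0:ℝ) < 2 ^ a / 2 ^ c := by positivity
      have h2 : (2:ℝ) ^ a * 2 / 2 ^ c = 2 * (2 ^ a / 2 ^ c) := by ring
      rw [h2]; linarith
    · have ha2 : a + 1 = s c := by omega
      have hn : ¬ Link l (n + 1) := by
        rintro ⟨c', a', h', ha'⟩
        have h2 := h'.unique (h.shift (t := 1) (by omega))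
        obtain ⟨rfl, rfl⟩ := h2
        omega
      rw [U_nonlink hn]
      refine (norm_sub_le _ _).trans ?_
      rw [norm_smul, norm_e, mul_one, Real.norm_eq_abs, abs_of_pos (wt_pos _),
        wt_top (h.shift (by omega)) (by omega)]
      have h1 := norm_sh_U_le (t := 1) h ha (by omega)
      have h2 := E_le c
      have h3 : D c = 2 * wt (l, n) := by
        rw [wt_link h ha, D]
        have h4 : c + d c = a + 1 := by rw [ha2, s_eq]
        have h5 : (2:ℝ) ^ c * 2 ^ (d c) = 2 ^ a * 2 := by rw [← pow_add, h4, pow_succ]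
        field_simp
        linarith
      linarith
  · rw [pr_nonlink hl, map_zero, sub_zero]
    have hD : D l ≤ wt (l, n) := by
      rw [wt_nonlink hl]; exact D_mono (le_cd l n)
    by_cases hl' : Link l (n + 1)
    · obtain ⟨c, a, h, ha⟩ := hl'
      have ha0 : a = 0 := by
        by_contra hcon
        obtain ⟨a', rfl⟩ : ∃ a', a = a' + 1 := ⟨a - 1, by omega⟩
        exact hl ⟨c, a', h.unshift, by omega⟩
      subst ha0
      rw [U_eq, pr_ret h ha (by omega), sh_single, one_smul, wt_link h ha]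
      refine (norm_add_le _ _).trans ?_
      rw [norm_smul, norm_e, mul_one, Real.norm_eq_abs, abs_of_pos (by positivity)]
      simp only [Nat.add_zero]
      have h1 : ‖U (l, 0)‖ ≤ rho (l, 0) + E l := by
        refine (norm_emb_le _).trans ?_
        have := al_nrm l 0
        have h2 : cd l 0 = l := by
          have : InWin l 0 l 0 := inWin_init (by have := s_lt_W l; omega)
          exact this.cd_eq
        rwa [h2] at this
      have h2 : rho (l, 0) ≤ 1 := by
        unfold rho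
        have h3 : InWin l 0 l 0 := inWin_init (by have := s_lt_W l; omega)
        rw [wt_link h3 (by have := s_pos l; omega), pow_zero]
        apply max_le _ le_rfl
        rw [div_le_one (by positivity)]
        exact one_le_pow₀ (by norm_num)
      have h3 := E_le l
      have h4 : (2:ℝ) ^ 0 / 2 ^ c ≤ 1 := by
        rw [pow_zero, div_le_one (by positivity)]
        exact one_le_pow₀ (by norm_num)
      have h5 := one_le_D l
      linarith
    · rw [U_nonlink hl', norm_smul, norm_e, mul_one, Real.norm_eq_abs, abs_of_pos (wt_pos _)]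
      have : wt (l, n + 1) ≤ wt (l, n) := by
        rw [wt_nonlink hl, wt_nonlink hl']
        by_cases hW : Win l (n + 1)
        · obtain ⟨⟨c, a⟩, h⟩ := hW
          simp only at h
          have ha : s c ≤ a := by
            by_contra hcon
            push Not at hcon
            exact hl' ⟨c, a, h, hcon⟩
          have hs := s_pos c
          obtain ⟨a', rfl⟩ : ∃ a', a = a' + 1 := ⟨a - 1, by omega⟩
          rw [h.cd_eq, h.unshift.cd_eq]
        · rw [cd_free hW]
          exact D_mono (le_cd l n)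
      linarith

/-- the operator -/
noncomputable def T : X →L[ℝ] X := lift Te 3 Te_bound

lemma T_e (l n : ℕ) : T (e (l, n)) = (wt (l, n))⁻¹ • (U (l, n + 1) - sh U 1 (pr l n)) := by
  unfold T; rw [lift_e]; rfl

lemma T_U (l n : ℕ) : T (U (l, n)) = U (l, n + 1) := by
  revert l n
  apply lex_ind
  intro l n ih
  have h1 : T (sh U 0 (pr l n)) = sh U 1 (pr l n) := by
    have h2 : T (sh U 0 (pr l n)) = T.toLinearMap (sh U 0 (pr l n)) := rfl
    rw [h2, map_sh, sh_apply, sh_apply]
    apply Finsupp.sum_congr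
    intro ν hν
    have hl : Link l n := by
      by_contra hcon
      rw [pr_nonlink hcon] at hν
      simp at hν
    obtain ⟨c, a, h, ha⟩ := hl
    have := ih ν.1 ν.2 (pr_supp h ha hν).2.2.1
    change _ • T (U (ν.1, ν.2 + 0)) = _
    rw [Nat.add_zero, this]
  rw [U_eq l n, map_add, map_smul, T_e, h1, smul_smul, mul_inv_cancel₀ (wt_pos _).ne', one_smul]
  simp

lemma Tpow_U (t l n : ℕ) : (T ^ t) (U (l, n)) = U (l, n + t) := by
  induction t with
  | zero => simp
  | succ t ih =>
    rw [pow_succ', mul_apply_eq_comp, ih, T_U]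
    rfl

lemma Tpow_sh (t : ℕ) (η : ℕ × ℕ →₀ ℝ) : (T ^ t) (sh U 0 η) = sh U t η := by
  have h2 : (T ^ t) (sh U 0 η) = (T ^ t).toLinearMap (sh U 0 η) := rfl
  rw [h2, map_sh, sh_apply, sh_apply]
  apply Finsupp.sum_congr
  intro ν hν
  change _ • (T ^ t) (U (ν.1, ν.2 + 0)) = _
  rw [Nat.add_zero, Tpow_U]

lemma e_eq (l n : ℕ) : e (l, n) = (wt (l, n))⁻¹ • (U (l, n) - sh U 0 (pr l n)) := by
  rw [U_eq l n, add_sub_cancel_right, smul_smul, inv_mul_cancel₀ (wt_pos _).ne', one_smul]

lemma Tpow_e (t l n : ℕ) :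
    (T ^ t) (e (l, n)) = (wt (l, n))⁻¹ • (U (l, n + t) - sh U t (pr l n)) := by
  rw [e_eq l n, map_smul, map_sub, Tpow_U, Tpow_sh]

end Pool.Agent.FRecEx
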