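import Mathlib

set_option autoImplicit false

namespace Pool.Agent.FRecEx

/-- exponent of the height of a window of code `c` -/
def d (c : ℕ) : ℕ := 10 * 4 ^ c
/-- length of the link phase -/
def s (c : ℕ) : ℕ := c + d c
/-- length of the whole window -/
def W (c : ℕ) : ℕ := (s c) ^ 2
/-- period of the return times of code `c` -/
def q (c : ℕ) : ℕ := 2 ^ (20 * (c + 1) ^ 2)

lemma four_pow_gt (c : ℕ) : c ^ 2 + c < 2 * 4 ^ c := by
  induction c with
  | zero => norm_num
  | succ n ih =>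
    have h1 : n < 4 ^ n := Nat.lt_pow_self (by norm_num)
    have h2 : (4:ℕ) ^ (n + 1) = 4 * 4 ^ n := by ring
    nlinarith

lemma d_pos (c : ℕ) : 10 ≤ d c := by
  unfold d
  have : 1 ≤ 4 ^ c := Nat.one_le_pow _ _ (by norm_num)
  omega

lemma s_pos (c : ℕ) : 10 ≤ s c := by
  unfold s; have := d_pos c; omega

lemma c_lt_s (c : ℕ) : c < s c := by
  unfold s; have := d_pos c; omega

lemma d_succ (c : ℕ) : d (c + 1) = 4 * d c := by
  unfold d; ring

lemma d_strictMono : StrictMono d := by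
  apply strictMono_nat_of_lt_succ
  intro n
  rw [d_succ]; have := d_pos n; omega

lemma s_strictMono : StrictMono s := by
  intro a b h
  unfold s
  have := d_strictMono h
  omega

lemma s_gap {l c : ℕ} (h : l < c) : s l + l + l ^ 2 ≤ s c := by
  have h1 : s (l + 1) ≤ s c := s_strictMono.monotone h
  have h2 : s (l + 1) = l + 1 + 4 * d l := by unfold s; rw [d_succ]
  have h3 : s l = l + d l := rfl
  have h4 := four_pow_gt l
  have h5 : d l = 10 * 4 ^ l := rfl
  omega

lemma s_lt_W (c : ℕ) : s c < W c := by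
  unfold W; have := s_pos c; nlinarith

lemma s_add_s_le_W (c : ℕ) : s c + s c ≤ W c := by
  unfold W; have := s_pos c; nlinarith

lemma W_mono : Monotone W := by
  intro a b h
  unfold W
  exact Nat.pow_le_pow_left (s_strictMono.monotone h) 2

lemma W_sub {c c' t : ℕ} (h : c ≤ c') (ht : t + s c ≤ W c) : t + s c' ≤ W c' := by
  unfold W at *
  have h1 := s_strictMono.monotone h
  obtain ⟨k, hk⟩ := Nat.exists_eq_add_of_le h1
  rw [hk]
  have := s_pos c
  nlinarith

lemma W_le (c : ℕ) : W c ≤ 2 ^ (7 + 4 * c) := by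
  have h1 : c < 4 ^ c := Nat.lt_pow_self (by norm_num)
  have h2 : s c ≤ 11 * 4 ^ c := by unfold s d; omega
  calc W c ≤ (11 * 4 ^ c) ^ 2 := Nat.pow_le_pow_left h2 2
    _ = 121 * 4 ^ (c * 2) := by rw [mul_pow, ← pow_mul]; norm_num
    _ ≤ 128 * 4 ^ (c * 2) := by omega
    _ = 2 ^ (7 + 4 * c) := by
      rw [pow_add, show (4:ℕ) = 2 ^ 2 by norm_num, ← pow_mul]
      norm_num; ring_nf

lemma q_pos (c : ℕ) : 0 < q c := by unfold q; positivity

lemma W_q (c : ℕ) : 2 ^ (c + 5) * W c ≤ q c := by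
  calc 2 ^ (c + 5) * W c ≤ 2 ^ (c + 5) * 2 ^ (7 + 4 * c) := Nat.mul_le_mul_left _ (W_le c)
    _ = 2 ^ (c + 5 + (7 + 4 * c)) := by rw [← pow_add]
    _ ≤ q c := by
      unfold q
      apply Nat.pow_le_pow_right (by norm_num)
      nlinarith

lemma q_q {c c' : ℕ} (h : c < c') : 2 ^ (c' + 5) * q c ≤ q c' := by
  unfold q
  rw [← pow_add]
  apply Nat.pow_le_pow_right (by norm_num)
  obtain ⟨k, rfl⟩ := Nat.exists_eq_add_of_lt h
  nlinarith

lemma q_dvd {c c' : ℕ} (h : c ≤ c') : q c ∣ q c' := by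
  unfold q
  apply pow_dvd_pow
  have : (c + 1) ^ 2 ≤ (c' + 1) ^ 2 := Nat.pow_le_pow_left (by omega) 2
  omega

lemma q_strictMono : StrictMono q := by
  intro a b h
  have h1 := q_q h
  have h2 := q_pos a
  have h3 : 2 ≤ 2 ^ (b + 5) := by
    calc 2 = 2 ^ 1 := by norm_num
      _ ≤ 2 ^ (b + 5) := Nat.pow_le_pow_right (by norm_num) (by omega)
  nlinarith

lemma W_add_le_q (c : ℕ) : W c + c ≤ q c := by
  have h1 := W_q c
  have h2 : c < W c := (c_lt_s c).trans (s_lt_W c)
  have h3 : 2 ≤ 2 ^ (c + 5) := by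
    calc 2 = 2 ^ 1 := by norm_num
      _ ≤ 2 ^ (c + 5) := Nat.pow_le_pow_right (by norm_num) (by omega)
  nlinarith

lemma s_add_le_q (c : ℕ) : s c + c ≤ q c := by
  have := W_add_le_q c; have := s_lt_W c; omega

lemma c_lt_q (c : ℕ) : c < q c := by
  have := s_add_le_q c; have := s_pos c; omega

lemma s_eq (c : ℕ) : s c = c + d c := rfl

lemma d_eq (c : ℕ) : d c = 10 * 4 ^ c := rfl

lemma W_eq (c : ℕ) : W c = (s c) ^ 2 := rfl

attribute [irreducible] q W s d

end Pool.Agent.FRecEx
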