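import Pool.Agent.Lib.MP_7b2682_an.Op

/-!
The frequently recurrent vectors of the operator `T` are dense (MP_7b2682_an).
-/

set_option autoImplicit false
open Topology

namespace Pool.Agent.MP7b2682

/-- frequently recurrent vectors of `T` -/
def IsFRec (x : L1 Pt) : Prop :=
  ∀ U ∈ 𝓝 x, ∃ δ : ℝ, 0 < δ ∧ ∃ N₀ : ℕ, ∀ N : ℕ, N₀ ≤ N →
    δ * (N : ℝ) ≤ (({n : ℕ | 1 ≤ n ∧ n ≤ N ∧ (T ^ n) x ∈ U}.ncard : ℕ) : ℝ)

theorem norm_T_le : ‖T‖ ≤ 4 := by
  unfold T opc
  exact LinearMap.mkContinuous_norm_le _ (by norm_num) _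

theorem norm_T_pow_le (n : ℕ) (x : L1 Pt) : ‖(T ^ n) x‖ ≤ 4 ^ n * ‖x‖ := by
  induction n with
  | zero => simp
  | succ n ih =>
    rw [pow_succ', mul_apply_eq_comp]
    calc ‖T ((T ^ n) x)‖ ≤ ‖T‖ * ‖(T ^ n) x‖ := T.le_opNorm _
      _ ≤ 4 * (4 ^ n * ‖x‖) := mul_le_mul norm_T_le ih (norm_nonneg _) (by norm_num)
      _ = 4 ^ (n + 1) * ‖x‖ := by rw [pow_succ]; ring

theorem T_pow_add (m n : ℕ) (x : L1 Pt) : (T ^ m) ((T ^ n) x) = (T ^ n) ((T ^ m) x) := by
  rw [← mul_apply_eq_comp, ← mul_apply_eq_comp, ← pow_add, ← pow_add, add_comm]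

theorem start_recur {m q : ℕ} (hw : Win m) (hq : ql m = q) (hm : m % kap q = 0) {a : Lab}
    (ha : th a ≤ q) (hal : al a (zn m)) :
    ‖(T ^ m) (dl (a, 0)) - dl (a, 0)‖ ≤ (1 / 2) ^ q := by
  have hA : Att (a, m) := ⟨hw, by rw [hq]; exact ha, hal⟩
  have hd : Atd (a, m) := Or.inr hA
  have hp : po (a, m) = 0 := by rw [po_att hA]; change m % kap (ql m) = 0; rw [hq]; exact hm
  have hl : pl (a, m) = a := by rw [pl_att hA]
  have hqq : qu (a, m) = q := by rw [qu_att hA]; exact hq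
  rw [T_pow_dl, zero_add, dl_atd hd]
  unfold pp
  rw [hp, hl, add_sub_cancel_right, norm_smul, norm_ep, mul_one, w_atd hd, hp, hqq,
    Real.norm_eq_abs, abs_of_pos (by positivity)]
  simp

/-- labels admissible for parameter `B` -/
def Good (B : ℕ) : Lab → Prop
  | Sum.inl b => B ≤ b
  | Sum.inr k => k < B

/-- good zone number in group `g` -/
def gz (B g : ℕ) : ℕ := if KK g < B then 2 * g + 1 else 2 * g

theorem gz_le (B g : ℕ) : gz B g ≤ 2 * g + 1 := by unfold gz; split_ifs <;> omega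
theorem le_gz (B g : ℕ) : 2 * g ≤ gz B g := by unfold gz; split_ifs <;> omega

theorem al_gz {B : ℕ} {a : Lab} (h : Good B a) (g : ℕ) : al a (gz B g) := by
  unfold gz
  rcases a with b | k
  · have hb : B ≤ b := h
    split_ifs with h1
    · right
      have : (2 * g + 1) / 2 = g := by omega
      rw [this]; omega
    · left; omega
  · have hk : k < B := h
    split_ifs with h1
    · left; omega
    · right
      have : (2 * g) / 2 = g := by omega
      rw [this]; omega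

/-- the span of the admissible orbits -/
noncomputable def SB (B : ℕ) : Submodule ℝ (L1 Pt) :=
  Submodule.span ℝ {x | ∃ a l, Good B a ∧ x = dl (a, l)}

theorem recur_span {B : ℕ} {y : L1 Pt} (hy : y ∈ SB B) :
    ∃ (C : ℝ) (q0 : ℕ), 0 ≤ C ∧ ∀ q, q0 ≤ q → ∀ m, Win m → ql m = q → m % kap q = 0 →
      (∀ a, Good B a → al a (zn m)) → ‖(T ^ m) y - y‖ ≤ C * (1 / 2) ^ q := by
  unfold SB at hy
  induction hy using Submodule.span_induction with
  | mem x hx =>
    obtain ⟨a, l, ha, rfl⟩ := hx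
    refine ⟨4 ^ l, th a, by positivity, ?_⟩
    intro q hq m hw hqm hm hal
    have h1 := start_recur hw hqm hm hq (hal a ha)
    have h2 : dl (a, l) = (T ^ l) (dl (a, 0)) := by rw [T_pow_dl, zero_add]
    rw [h2, T_pow_add, ← map_sub]
    calc ‖(T ^ l) ((T ^ m) (dl (a, 0)) - dl (a, 0))‖
        ≤ 4 ^ l * ‖(T ^ m) (dl (a, 0)) - dl (a, 0)‖ := norm_T_pow_le _ _
      _ ≤ 4 ^ l * (1 / 2) ^ q := mul_le_mul_of_nonneg_left h1 (by positivity)
  | zero => exact ⟨0, 0, le_refl _, by intros; simp⟩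
  | add x y _ _ hx hy =>
    obtain ⟨C1, q1, hC1, h1⟩ := hx
    obtain ⟨C2, q2, hC2, h2⟩ := hy
    refine ⟨C1 + C2, max q1 q2, by positivity, ?_⟩
    intro q hq m hw hqm hm hal
    have e1 := h1 q (le_trans (le_max_left _ _) hq) m hw hqm hm hal
    have e2 := h2 q (le_trans (le_max_right _ _) hq) m hw hqm hm hal
    have e3 : (T ^ m) (x + y) - (x + y) = ((T ^ m) x - x) + ((T ^ m) y - y) := by
      rw [map_add]; abel
    rw [e3]
    calc _ ≤ ‖(T ^ m) x - x‖ + ‖(T ^ m) y - y‖ := norm_add_le _ _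
      _ ≤ C1 * (1 / 2) ^ q + C2 * (1 / 2) ^ q := add_le_add e1 e2
      _ = _ := by ring
  | smul r x _ hx =>
    obtain ⟨C1, q1, hC1, h1⟩ := hx
    refine ⟨|r| * C1, q1, by positivity, ?_⟩
    intro q hq m hw hqm hm hal
    have e1 := h1 q hq m hw hqm hm hal
    rw [map_smul, ← smul_sub, norm_smul, Real.norm_eq_abs, mul_assoc]
    exact mul_le_mul_of_nonneg_left e1 (abs_nonneg _)

/-- the window starts of quality `q` in zone `n` -/
def wst (n q i : ℕ) : ℕ := 4 ^ n + 2 ^ (2 * n - q - 1) + i * kap q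

theorem wst_spec {n q i : ℕ} (hn : 2 * q + 2 ≤ n) (hi : i < 2 ^ (2 * n - 3 * q - 2)) :
    Win (wst n q i) ∧ zn (wst n q i) = n ∧ ql (wst n q i) = q ∧ wst n q i % kap q = 0 := by
  have hk : i * kap q + kap q ≤ 2 ^ (2 * n - q - 1) := by
    have h1 : (i + 1) * kap q ≤ 2 ^ (2 * n - 3 * q - 2) * kap q :=
      Nat.mul_le_mul_right _ (by omega)
    have h2 : 2 ^ (2 * n - 3 * q - 2) * kap q = 2 ^ (2 * n - q - 1) := by
      rw [kap_eq, ← pow_add]; congr 1; omega
    rw [h2] at h1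
    calc i * kap q + kap q = (i + 1) * kap q := by ring
      _ ≤ _ := h1
  have hkp := kap_pos q
  have hs : q + (2 * n - q - 1) + 1 = 2 * n := by omega
  obtain ⟨a, b, c⟩ := win_of (l := wst n q i) hs (by unfold wst; omega)
    (by unfold wst; rw [pow_succ]; omega) hn
  refine ⟨a, b, c, ?_⟩
  apply Nat.mod_eq_zero_of_dvd
  unfold wst
  exact Nat.dvd_add (Nat.dvd_add (kap_dvd_four_pow hn) (kap_dvd_two_pow (by omega)))
    (Nat.dvd_mul_left _ _)

theorem wst_inj {n q i j : ℕ} (h : wst n q i = wst n q j) : i = j := by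
  unfold wst at h
  have h1 : i * kap q = j * kap q := by omega
  exact Nat.eq_of_mul_eq_mul_right (kap_pos q) h1

theorem isFRec_of_mem_SB {B : ℕ} {y : L1 Pt} (hy : y ∈ SB B) : IsFRec y := by
  intro U hU
  obtain ⟨ε, hε, hball⟩ := Metric.mem_nhds_iff.mp hU
  obtain ⟨C, q0, hC, hrec⟩ := recur_span hy
  -- choose the quality
  obtain ⟨q1, hq1⟩ : ∃ q1 : ℕ, C * (1 / 2) ^ q1 < ε := by
    have h1 : Filter.Tendsto (fun q : ℕ => C * (1 / 2 : ℝ) ^ q) Filter.atTop (𝓝 (C * 0)) :=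
      (tendsto_pow_atTop_nhds_zero_of_lt_one (by norm_num) (by norm_num)).const_mul C
    rw [mul_zero] at h1
    exact ((tendsto_order.1 h1).2 ε hε).exists
  set q := max q0 q1 with hqdef
  have hq : C * (1 / 2) ^ q < ε := by
    refine lt_of_le_of_lt ?_ hq1
    apply mul_le_mul_of_nonneg_left _ hC
    exact pow_le_pow_of_le_one (by norm_num) (by norm_num) (le_max_right _ _)
  refine ⟨1 / 2 ^ (3 * q + 10), by positivity, 4 ^ (2 * q + 5), ?_⟩
  intro N hN
  have hN0 : N ≠ 0 := by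
    have : 0 < 4 ^ (2 * q + 5) := by positivity
    omega
  set L := Nat.log 4 N with hL
  have hL1 : 2 * q + 5 ≤ L := by
    rw [hL]; exact (Nat.le_log_iff_pow_le (by norm_num) hN0).mpr hN
  have hL2 : 4 ^ L ≤ N := Nat.pow_log_le_self 4 hN0
  have hL3 : N < 4 ^ (L + 1) := Nat.lt_pow_succ_log_self (by norm_num) N
  set g := L / 2 - 1 with hg
  set n := gz B g with hn
  have hn1 : n ≤ 2 * g + 1 := gz_le B g
  have hn2 : 2 * g ≤ n := le_gz B g
  have hnq : 2 * q + 2 ≤ n := by omega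
  have hsub : (Finset.image (fun i => wst n q i) (Finset.range (2 ^ (2 * n - 3 * q - 2))) : Set ℕ)
      ⊆ {m : ℕ | 1 ≤ m ∧ m ≤ N ∧ (T ^ m) y ∈ U} := by
    intro m hm
    simp only [Finset.coe_image, Finset.coe_range, Set.mem_image, Set.mem_Iio] at hm
    obtain ⟨i, hi, rfl⟩ := hm
    obtain ⟨h1, h2, h3, h4⟩ := wst_spec hnq hi
    refine ⟨lt_of_le_of_lt (Nat.zero_le _) h1.1, ?_, ?_⟩
    · have h5 := h1.2.1
      rw [h2] at h5
      have h6 : 2 * 4 ^ n ≤ 4 ^ L := by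
        calc 2 * 4 ^ n ≤ 4 ^ n * 4 := by omega
          _ = 4 ^ (n + 1) := by rw [pow_succ]
          _ ≤ 4 ^ L := Nat.pow_le_pow_right (by norm_num) (by omega)
      omega
    · apply hball
      rw [Metric.mem_ball, dist_eq_norm]
      refine lt_of_le_of_lt (hrec q (le_max_left _ _) _ h1 h3 h4 ?_) hq
      intro a ha
      rw [h2]
      exact al_gz ha g
  have hfin : {m : ℕ | 1 ≤ m ∧ m ≤ N ∧ (T ^ m) y ∈ U}.Finite :=
    (Set.finite_Iic N).subset (fun m hm => hm.2.1)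
  have hcard := Set.ncard_le_ncard hsub hfin
  rw [Set.ncard_coe_finset, Finset.card_image_of_injective _ (fun i j h => wst_inj h),
    Finset.card_range] at hcard
  have h7 : (N : ℝ) ≤ 2 ^ (2 * n + 8) := by
    have : N ≤ 2 ^ (2 * n + 8) := by
      calc N ≤ 4 ^ (L + 1) := hL3.le
        _ = 2 ^ (2 * (L + 1)) := four_pow_eq _
        _ ≤ 2 ^ (2 * n + 8) := Nat.pow_le_pow_right (by norm_num) (by omega)
    exact_mod_cast this
  have h8 : (2 : ℝ) ^ (2 * n + 8) = 2 ^ (2 * n - 3 * q - 2) * 2 ^ (3 * q + 10) := by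
    rw [← pow_add]; congr 1; omega
  calc 1 / 2 ^ (3 * q + 10) * (N : ℝ) ≤ 1 / 2 ^ (3 * q + 10) * 2 ^ (2 * n + 8) :=
        mul_le_mul_of_nonneg_left h7 (by positivity)
    _ = ((2 ^ (2 * n - 3 * q - 2) : ℕ) : ℝ) := by
        rw [h8]; push_cast; field_simp
    _ ≤ _ := by exact_mod_cast hcard

/-! ### density -/

theorem child_close (b B l : ℕ) :
    ‖dl (Sum.inl (Nat.pair b B + 1), l) - dl (Sum.inl b, l)‖ ≤ 4 ^ l * (1 / 2) ^ B := by
  set a : Lab := Sum.inl (Nat.pair b B + 1) with ha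
  have hth : th a = Nat.pair b B + 1 := rfl
  have hi : Ini (a, 0) := ⟨kap_pos _, by change th a ≠ 0; rw [hth]; omega⟩
  have hA : Atd (a, 0) := Or.inl hi
  have hpar : parL a = Sum.inl b := by
    unfold parL
    rw [hth]
    simp
  have h0 : dl (a, 0) - dl (Sum.inl b, 0) = w (a, 0) • ep (a, 0) := by
    rw [dl_atd hA]
    have h3 : pp (a, 0) = (Sum.inl b, 0) := by
      unfold pp
      rw [pl_ini hi, po_ini hi]
      change (parL a, 0) = _
      rw [hpar]
    rw [h3]; abel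
  have h1 : dl (a, l) - dl (Sum.inl b, l) = (T ^ l) (dl (a, 0) - dl (Sum.inl b, 0)) := by
    rw [map_sub, T_pow_dl, T_pow_dl, zero_add]
  rw [h1, h0]
  refine (norm_T_pow_le _ _).trans ?_
  apply mul_le_mul_of_nonneg_left _ (by positivity)
  rw [norm_smul, norm_ep, mul_one, Real.norm_eq_abs, abs_of_pos (w_pos _), w_atd hA, po_ini hi,
    qu_ini hi]
  change (2 : ℝ) ^ 0 / 2 ^ th a ≤ _
  rw [hth, pow_zero, ← one_div_pow]
  apply pow_le_pow_of_le_one (by norm_num) (by norm_num)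
  have := Nat.right_le_pair b B
  omega

theorem approx_span {x : L1 Pt} (hx : x ∈ Submodule.span ℝ (Set.range dl)) :
    ∀ ε : ℝ, 0 < ε → ∃ B0 : ℕ, ∀ B, B0 ≤ B → ∃ y ∈ SB B, ‖y - x‖ < ε := by
  induction hx using Submodule.span_induction with
  | mem x hx =>
    intro ε hε
    obtain ⟨⟨a, l⟩, rfl⟩ := hx
    rcases a with b | k
    · have h1 : Filter.Tendsto (fun q : ℕ => (4 : ℝ) ^ l * (1 / 2 : ℝ) ^ q) Filter.atTop
          (𝓝 ((4 : ℝ) ^ l * 0)) :=
        (tendsto_pow_atTop_nhds_zero_of_lt_one (by norm_num) (by norm_num)).const_mul _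
      rw [mul_zero] at h1
      obtain ⟨B0, hB0⟩ := Filter.eventually_atTop.1 ((tendsto_order.1 h1).2 ε hε)
      refine ⟨B0, fun B hB => ⟨dl (Sum.inl (Nat.pair b B + 1), l), ?_, ?_⟩⟩
      · apply Submodule.subset_span
        refine ⟨Sum.inl (Nat.pair b B + 1), l, ?_, rfl⟩
        change B ≤ Nat.pair b B + 1
        have := Nat.right_le_pair b B
        omega
      · exact lt_of_le_of_lt (child_close b B l) (hB0 B hB)
    · refine ⟨k + 1, fun B hB => ⟨dl (Sum.inr k, l), ?_, by simpa using hε⟩⟩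
      apply Submodule.subset_span
      exact ⟨Sum.inr k, l, (by change k < B; omega), rfl⟩
  | zero => exact fun ε hε => ⟨0, fun B _ => ⟨0, Submodule.zero_mem _, by simpa using hε⟩⟩
  | add x y _ _ hx hy =>
    intro ε hε
    obtain ⟨B1, h1⟩ := hx (ε / 2) (by positivity)
    obtain ⟨B2, h2⟩ := hy (ε / 2) (by positivity)
    refine ⟨max B1 B2, fun B hB => ?_⟩
    obtain ⟨u, hu, hu2⟩ := h1 B (le_trans (le_max_left _ _) hB)
    obtain ⟨v, hv, hv2⟩ := h2 B (le_trans (le_max_right _ _) hB)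
    refine ⟨u + v, Submodule.add_mem _ hu hv, ?_⟩
    have e : u + v - (x + y) = (u - x) + (v - y) := by abel
    rw [e]
    calc _ ≤ ‖u - x‖ + ‖v - y‖ := norm_add_le _ _
      _ < ε / 2 + ε / 2 := add_lt_add hu2 hv2
      _ = ε := by ring
  | smul r x _ hx =>
    intro ε hε
    obtain ⟨B1, h1⟩ := hx (ε / (|r| + 1)) (by positivity)
    refine ⟨B1, fun B hB => ?_⟩
    obtain ⟨u, hu, hu2⟩ := h1 B hB
    refine ⟨r • u, Submodule.smul_mem _ _ hu, ?_⟩
    rw [← smul_sub, norm_smul, Real.norm_eq_abs]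
    have h3 : (|r| + 1) * (ε / (|r| + 1)) = ε := by field_simp
    have h4 : 0 ≤ |r| := abs_nonneg r
    calc |r| * ‖u - x‖ ≤ |r| * (ε / (|r| + 1)) := mul_le_mul_of_nonneg_left hu2.le h4
      _ < (|r| + 1) * (ε / (|r| + 1)) := by
          apply mul_lt_mul_of_pos_right _ (by positivity)
          linarith
      _ = ε := h3

theorem ep_mem_span (p : Pt) : (ep p : L1 Pt) ∈ Submodule.span ℝ (Set.range dl) := by
  have hw := w_pos p
  have h : w p • (ep p : L1 Pt) ∈ Submodule.span ℝ (Set.range dl) := by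
    by_cases hA : Atd p
    · have : w p • (ep p : L1 Pt) = dl p - dl (pp p) := by rw [dl_atd hA]; abel
      rw [this]
      exact Submodule.sub_mem _ (Submodule.subset_span ⟨_, rfl⟩) (Submodule.subset_span ⟨_, rfl⟩)
    · rw [← dl_free hA]
      exact Submodule.subset_span ⟨_, rfl⟩
  have h2 := Submodule.smul_mem _ (w p)⁻¹ h
  rwa [smul_smul, inv_mul_cancel₀ hw.ne', one_smul] at h2

theorem dense_FRec : Dense {x : L1 Pt | IsFRec x} := by
  have h1 : (Submodule.span ℝ (Set.range dl) : Set (L1 Pt)) ⊆ closure {x : L1 Pt | IsFRec x} := by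
    intro x hx
    rw [Metric.mem_closure_iff]
    intro ε hε
    obtain ⟨B, hB⟩ := approx_span hx ε hε
    obtain ⟨y, hy, hyx⟩ := hB B le_rfl
    refine ⟨y, isFRec_of_mem_SB hy, ?_⟩
    rw [dist_comm, dist_eq_norm]
    exact hyx
  have h2 : (Submodule.span ℝ (Set.range (fun p : Pt => (ep p : L1 Pt))) : Set (L1 Pt)) ⊆
      (Submodule.span ℝ (Set.range dl) : Set (L1 Pt)) := by
    apply Submodule.span_le.mpr
    rintro _ ⟨p, rfl⟩
    exact ep_mem_span p
  intro x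
  have h3 := mem_closure_span_ep x
  exact closure_minimal (h2.trans h1) isClosed_closure h3

end Pool.Agent.MP7b2682
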