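import Pool.Agent.Lib.MP_7b2682_an.Params

set_option autoImplicit false

namespace Pool.Agent.FRecEx

/-- the return times of code `c` -/
def L (c : ℕ) : Set ℕ :=
  {m | 1 ≤ m ∧ q c ∣ m ∧ ∀ c' > c, ∀ k ≥ 1, m + W c' ≤ k * q c' ∨ k * q c' + W c' ≤ m}

lemma mem_L {c m : ℕ} : m ∈ L c ↔ 1 ≤ m ∧ q c ∣ m ∧
    ∀ c' > c, ∀ k ≥ 1, m + W c' ≤ k * q c' ∨ k * q c' + W c' ≤ m := Iff.rfl

lemma L_pos {c m : ℕ} (h : m ∈ L c) : 1 ≤ m := h.1

lemma L_ge {c m : ℕ} (h : m ∈ L c) : q c ≤ m := Nat.le_of_dvd h.1 h.2.1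

lemma sep_lt {c c' m m' : ℕ} (hc : c < c') (h : m ∈ L c) (h' : m' ∈ L c') :
    m + W c' ≤ m' ∨ m' + W c' ≤ m := by
  obtain ⟨k, hk⟩ := h'.2.1
  have hk1 : 1 ≤ k := by
    rcases Nat.eq_zero_or_pos k with h0 | h0
    · have := h'.1; rw [hk, h0] at this; simp at this
    · exact h0
  have := h.2.2 c' hc k hk1
  rw [hk, Nat.mul_comm]
  exact this

lemma sep_eq {c m m' : ℕ} (hm : m ≠ m') (h : m ∈ L c) (h' : m' ∈ L c) :
    m + W c ≤ m' ∨ m' + W c ≤ m := by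
  obtain ⟨k, hk⟩ := h.2.1
  obtain ⟨k', hk'⟩ := h'.2.1
  have hW := W_add_le_q c
  rcases lt_trichotomy k k' with h1 | h1 | h1
  · left
    obtain ⟨j, rfl⟩ := Nat.exists_eq_add_of_lt h1
    rw [hk, hk']; nlinarith
  · exact absurd (by rw [hk, hk', h1]) hm
  · right
    obtain ⟨j, rfl⟩ := Nat.exists_eq_add_of_lt h1
    rw [hk, hk']; nlinarith

/-- separation of the return times -/
lemma sep {c c' m m' : ℕ} (h : m ∈ L c) (h' : m' ∈ L c') (hne : ¬ (c = c' ∧ m = m')) :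
    m + W (max c c') ≤ m' ∨ m' + W (max c c') ≤ m := by
  rcases lt_trichotomy c c' with h1 | h1 | h1
  · rw [max_eq_right h1.le]; exact sep_lt h1 h h'
  · subst h1
    rw [max_self]
    exact sep_eq (fun hh => hne ⟨rfl, hh⟩) h h'
  · rw [max_eq_left h1.le]; exact (sep_lt h1 h' h).symm

open Finset Classical in
lemma card_near (c c' k : ℕ) (hc : c < c') (N : ℕ) :
    (((Ioc 0 N).filter (fun m => q c ∣ m)).filter
      (fun m => ¬ (m + W c' ≤ k * q c' ∨ k * q c' + W c' ≤ m))).card ≤ 2 * (W c' / q c) + 1 := by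
  obtain ⟨r, hr⟩ := q_dvd hc.le
  have hq := q_pos c
  obtain ⟨K, hK⟩ : ∃ K, K = k * r := ⟨_, rfl⟩
  obtain ⟨w, hw⟩ : ∃ w, w = W c' / q c := ⟨_, rfl⟩
  rw [← hw]
  have hKq : k * q c' = K * q c := by rw [hr, hK]; ring
  have hsub : (((Ioc 0 N).filter (fun m => q c ∣ m)).filter
      (fun m => ¬ (m + W c' ≤ k * q c' ∨ k * q c' + W c' ≤ m))) ⊆
      (Icc (K - w) (K + w)).image (fun j => q c * j) := by
    intro m hm
    simp only [mem_filter, mem_Ioc, not_or, not_le] at hm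
    obtain ⟨⟨_, j, hj⟩, h1, h2⟩ := hm
    rw [mem_image]
    refine ⟨j, ?_, hj.symm⟩
    rw [mem_Icc]
    rw [hKq, hj] at h1 h2
    constructor
    · by_contra hcon
      push Not at hcon
      obtain ⟨x, hx⟩ : ∃ x, K = j + x := ⟨K - j, by omega⟩
      have h4 : w < x := by omega
      rw [hw, Nat.div_lt_iff_lt_mul hq] at h4
      rw [hx] at h1
      nlinarith
    · by_contra hcon
      push Not at hcon
      obtain ⟨x, hx⟩ : ∃ x, j = K + x := ⟨j - K, by omega⟩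
      have h4 : w < x := by omega
      rw [hw, Nat.div_lt_iff_lt_mul hq] at h4
      rw [hx] at h2
      nlinarith
  calc _ ≤ ((Icc (K - w) (K + w)).image (fun j => q c * j)).card :=
        card_le_card hsub
    _ ≤ (Icc (K - w) (K + w)).card := card_image_le
    _ = K + w + 1 - (K - w) := Nat.card_Icc _ _
    _ ≤ _ := by omega

open Finset Classical in
lemma bad_sub (c N : ℕ) :
    (((Ioc 0 N).filter (fun m => q c ∣ m)).filter
      (fun m => ∃ c' > c, ∃ k ≥ 1, ¬ (m + W c' ≤ k * q c' ∨ k * q c' + W c' ≤ m))) ⊆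
    (Ioc c (2 * N)).biUnion (fun c' => (Ioc 0 (2 * N / q c')).biUnion (fun k =>
      (((Ioc 0 N).filter (fun m => q c ∣ m)).filter
      (fun m => ¬ (m + W c' ≤ k * q c' ∨ k * q c' + W c' ≤ m))))) := by
  intro m hm
  simp only [mem_filter, mem_Ioc, not_or, not_le, gt_iff_lt, ge_iff_le] at hm
  obtain ⟨⟨⟨hm0, hmN⟩, hqm⟩, c', hc', k, hk, h1, h2⟩ := hm
  simp only [mem_biUnion, mem_filter, mem_Ioc, not_or, not_le]
  have h32 : 2 ≤ 2 ^ (c' + 5) := by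
    calc 2 = 2 ^ 1 := by norm_num
      _ ≤ 2 ^ (c' + 5) := Nat.pow_le_pow_right (by norm_num) (by omega)
  have hWq := W_q c'
  have h3 : 2 * W c' ≤ q c' := le_trans (Nat.mul_le_mul_right _ h32) hWq
  have h4 : q c' ≤ k * q c' := Nat.le_mul_of_pos_left _ hk
  have h5 : q c' < 2 * N := by omega
  have h6 : k * q c' ≤ 2 * N := by omega
  have h7 := c_lt_q c'
  refine ⟨c', ⟨hc', by omega⟩, k, ⟨hk, ?_⟩, ⟨⟨hm0, hmN⟩, hqm⟩, h1, h2⟩
  rw [Nat.le_div_iff_mul_le (q_pos c')]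
  exact h6

open Finset Classical in
lemma bad_card (c N : ℕ) :
    ((((Ioc 0 N).filter (fun m => q c ∣ m)).filter
      (fun m => ∃ c' > c, ∃ k ≥ 1, ¬ (m + W c' ≤ k * q c' ∨ k * q c' + W c' ≤ m))).card : ℝ) ≤
    3 / 8 * (N / q c) := by
  have hq : (0:ℝ) < q c := by exact_mod_cast q_pos c
  have h1 : (((Ioc 0 N).filter (fun m => q c ∣ m)).filter
      (fun m => ∃ c' > c, ∃ k ≥ 1, ¬ (m + W c' ≤ k * q c' ∨ k * q c' + W c' ≤ m))).card ≤
      ∑ c' ∈ Ioc c (2 * N), ∑ k ∈ Ioc 0 (2 * N / q c'), (2 * (W c' / q c) + 1) := by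
    refine (card_le_card (bad_sub c N)).trans (card_biUnion_le.trans ?_)
    apply sum_le_sum
    intro c' hc'
    refine card_biUnion_le.trans ?_
    apply sum_le_sum
    intro k hk
    exact card_near c c' k (mem_Ioc.1 hc').1 N
  have h2 : ((∑ c' ∈ Ioc c (2 * N), ∑ k ∈ Ioc 0 (2 * N / q c'), (2 * (W c' / q c) + 1) : ℕ) : ℝ) ≤
      ∑ c' ∈ Ioc c (2 * N), (6 * N / (32 * q c) : ℝ) * (1 / 2) ^ c' := by
    push_cast
    apply sum_le_sum
    intro c' hc'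
    rw [sum_const, Nat.card_Ioc, nsmul_eq_mul, Nat.sub_zero]
    have hq' : (0:ℝ) < q c' := by exact_mod_cast q_pos c'
    have hlt := (mem_Ioc.1 hc').1
    have ha : ((2 * N / q c' : ℕ) : ℝ) ≤ (2 * N) / q c' := by
      have := @Nat.cast_div_le ℝ _ _ _ (2 * N) (q c')
      push_cast at this; exact this
    have hb : ((W c' / q c : ℕ) : ℝ) ≤ W c' / q c := Nat.cast_div_le
    have hp : (0:ℝ) < 2 ^ (c' + 5) := by positivity
    have hc1 : (W c' : ℝ) ≤ q c' / 2 ^ (c' + 5) := by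
      rw [le_div_iff₀ hp, mul_comm]
      exact_mod_cast W_q c'
    have hc2 : (q c : ℝ) ≤ q c' / 2 ^ (c' + 5) := by
      rw [le_div_iff₀ hp, mul_comm]
      exact_mod_cast q_q hlt
    have hd : (2 * ((W c' / q c : ℕ) : ℝ) + 1) ≤ 3 * (q c' / 2 ^ (c' + 5)) / q c := by
      have h31 : (W c' : ℝ) / q c ≤ (q c' / 2 ^ (c' + 5)) / q c := by gcongr
      have h32 : (1:ℝ) ≤ (q c' / 2 ^ (c' + 5)) / q c := by
        rw [le_div_iff₀ hq, one_mul]; exact hc2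
      have : 3 * (q c' / 2 ^ (c' + 5)) / (q c : ℝ) = 3 * ((q c' / 2 ^ (c' + 5)) / q c) := by ring
      rw [this]; linarith
    calc ((2 * N / q c' : ℕ) : ℝ) * (2 * ((W c' / q c : ℕ) : ℝ) + 1)
        ≤ (2 * N) / q c' * (3 * (q c' / 2 ^ (c' + 5)) / q c) := by
          apply mul_le_mul ha hd (by positivity) (by positivity)
      _ = (6 * N / (32 * q c) : ℝ) * (1 / 2) ^ c' := by
          rw [one_div, inv_pow, pow_add]
          field_simp
          ring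
  have h3 : ∑ c' ∈ Ioc c (2 * N), (6 * N / (32 * q c) : ℝ) * (1 / 2) ^ c' ≤
      (6 * N / (32 * q c) : ℝ) * 2 := by
    rw [← mul_sum]
    apply mul_le_mul_of_nonneg_left _ (by positivity)
    calc ∑ c' ∈ Ioc c (2 * N), ((1:ℝ) / 2) ^ c' ≤ ∑ c' ∈ range (2 * N + 1), ((1:ℝ) / 2) ^ c' := by
          apply sum_le_sum_of_subset_of_nonneg
          · intro x hx
            rw [mem_Ioc] at hx; rw [mem_range]; omega
          · intros; positivity
      _ ≤ 2 := sum_geometric_two_le _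
  calc _ ≤ ((∑ c' ∈ Ioc c (2 * N), ∑ k ∈ Ioc 0 (2 * N / q c'), (2 * (W c' / q c) + 1) : ℕ) : ℝ) := by
        exact_mod_cast h1
    _ ≤ _ := h2
    _ ≤ _ := h3
    _ = _ := by field_simp; ring

open Finset Classical in
/-- the return times of code `c` have positive lower density -/
lemma L_density (c : ℕ) : ∃ δ : ℝ, 0 < δ ∧ ∃ N₀ : ℕ, ∀ N : ℕ, N₀ ≤ N →
    δ * N ≤ (({m : ℕ | 1 ≤ m ∧ m ≤ N ∧ m ∈ L c}.ncard : ℕ) : ℝ) := by
  have hq : (0:ℝ) < q c := by exact_mod_cast q_pos c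
  refine ⟨1 / (2 * q c), by positivity, 8 * q c, ?_⟩
  intro N hN
  set A := (Ioc 0 N).filter (fun m => q c ∣ m) with hA
  set B := A.filter
      (fun m => ∃ c' > c, ∃ k ≥ 1, ¬ (m + W c' ≤ k * q c' ∨ k * q c' + W c' ≤ m)) with hB
  have hset : {m : ℕ | 1 ≤ m ∧ m ≤ N ∧ m ∈ L c} = ((A \ B : Finset ℕ) : Set ℕ) := by
    ext m
    simp only [Set.mem_ofPred_eq, mem_L, coe_sdiff, Set.mem_sdiff, mem_coe, hA, hB, mem_filter,
      mem_Ioc]
    constructor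
    · rintro ⟨h1, h2, h3, h4, h5⟩
      refine ⟨⟨⟨h1, h2⟩, h4⟩, ?_⟩
      rintro ⟨_, c', hc', k, hk, hcon⟩
      exact hcon (h5 c' hc' k hk)
    · rintro ⟨⟨⟨h1, h2⟩, h4⟩, h5⟩
      refine ⟨h1, h2, h1, h4, ?_⟩
      intro c' hc' k hk
      by_contra hcon
      exact h5 ⟨⟨⟨h1, h2⟩, h4⟩, c', hc', k, hk, hcon⟩
  rw [hset, Set.ncard_coe_finset]
  have hBA : B ⊆ A := filter_subset _ _
  have h1 : A.card = N / q c := by
    rw [hA]; exact Nat.Ioc_filter_dvd_card_eq_div N (q c)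
  have h2 := bad_card c N
  have h3 : (A \ B).card = A.card - B.card := card_sdiff_of_subset hBA
  have h4 : B.card ≤ A.card := card_le_card hBA
  rw [h3, Nat.cast_sub h4, h1]
  have h5 : (N : ℝ) / q c - 1 ≤ ((N / q c : ℕ) : ℝ) := by
    have := Nat.lt_div_mul_add (a := N) (q_pos c)
    have h6 : (N : ℝ) < (N / q c : ℕ) * q c + q c := by exact_mod_cast this
    rw [sub_le_iff_le_add, div_le_iff₀ hq]
    nlinarith
  have h6 : (8:ℝ) ≤ N / q c := by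
    rw [le_div_iff₀ hq]; exact_mod_cast hN
  have h7 : 1 / (2 * (q c : ℝ)) * N = 1 / 2 * (N / q c) := by field_simp
  rw [h7]
  linarith

end Pool.Agent.FRecEx
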